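import Mathlib

/-!
The Figiel-Johnson norm `rho` on nonnegative sequences with values in `ℝ≥0∞`. The index `k`
stands for the position `k + 1`, so a family of `n` successive pieces is admissible when all its
indices are at least `n - 1`.
-/
set_option autoImplicit false
open scoped ENNReal
open Finset

namespace Pool.Agent.H825R3.Tsi

/-- admissible partitions: number of pieces and cutting points -/
abbrev Adm : Type := {p : ℕ × (ℕ → ℕ) // Monotone p.2 ∧ p.1 ≤ p.2 0 + 1}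

/-- restriction of a sequence to a set -/
noncomputable def ind (A : Set ℕ) (x : ℕ → ℝ≥0∞) : ℕ → ℝ≥0∞ := A.indicator x

/-- the iterates -/
noncomputable def rhoN : ℕ → (ℕ → ℝ≥0∞) → ℝ≥0∞
  | 0, x => ⨆ n, x n
  | m+1, x => max (rhoN m x)
      (⨆ p : Adm, 2⁻¹ * ∑ i ∈ range p.1.1, rhoN m (ind (Set.Ico (p.1.2 i) (p.1.2 (i+1))) x))

/-- the Figiel-Johnson norm -/
noncomputable def rho (x : ℕ → ℝ≥0∞) : ℝ≥0∞ := ⨆ m, rhoN m x

lemma ind_mono {A : Set ℕ} {x y : ℕ → ℝ≥0∞} (h : x ≤ y) : ind A x ≤ ind A y := by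
  intro n
  unfold ind
  exact Set.indicator_le_indicator (h n)

lemma ind_add (A : Set ℕ) (x y : ℕ → ℝ≥0∞) : ind A (x + y) = ind A x + ind A y := by
  unfold ind
  exact Set.indicator_add _ _ _

lemma ind_le (A : Set ℕ) (x : ℕ → ℝ≥0∞) : ind A x ≤ x := by
  intro n
  unfold ind
  exact Set.indicator_le_self _ _ _

lemma ind_smul (A : Set ℕ) (c : ℝ≥0∞) (x : ℕ → ℝ≥0∞) : ind A (c • x) = c • ind A x := by
  unfold ind
  funext n
  by_cases hn : n ∈ A <;> simp [hn]

lemma ind_apply_mem {A : Set ℕ} {n : ℕ} (h : n ∈ A) (x : ℕ → ℝ≥0∞) : ind A x n = x n := by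
  simp [ind, h]

lemma ind_apply_notMem {A : Set ℕ} {n : ℕ} (h : n ∉ A) (x : ℕ → ℝ≥0∞) : ind A x n = 0 := by
  simp [ind, h]

lemma ind_ind (A B : Set ℕ) (x : ℕ → ℝ≥0∞) : ind A (ind B x) = ind (A ∩ B) x := by
  unfold ind
  rw [Set.indicator_indicator]

lemma ind_subset {A B : Set ℕ} (h : A ⊆ B) (x : ℕ → ℝ≥0∞) : ind A x ≤ ind B x := by
  intro n
  by_cases hn : n ∈ A
  · rw [ind_apply_mem hn, ind_apply_mem (h hn)]
  · rw [ind_apply_notMem hn]; exact bot_le

lemma rhoN_mono (m : ℕ) : ∀ {x y : ℕ → ℝ≥0∞}, x ≤ y → rhoN m x ≤ rhoN m y := by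
  induction m with
  | zero =>
    intro x y h
    simp only [rhoN]
    exact iSup_mono h
  | succ m ih =>
    intro x y h
    simp only [rhoN]
    refine max_le_max (ih h) (iSup_mono fun p => ?_)
    gcongr with i hi
    exact ih (ind_mono h)

lemma rhoN_le_succ (m : ℕ) (x : ℕ → ℝ≥0∞) : rhoN m x ≤ rhoN (m+1) x := by
  simp only [rhoN]
  exact le_max_left _ _

lemma rhoN_monotone (x : ℕ → ℝ≥0∞) : Monotone (fun m => rhoN m x) :=
  monotone_nat_of_le_succ fun m => rhoN_le_succ m x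

lemma rho_mono {x y : ℕ → ℝ≥0∞} (h : x ≤ y) : rho x ≤ rho y :=
  iSup_mono fun m => rhoN_mono m h

lemma rhoN_add (m : ℕ) : ∀ (x y : ℕ → ℝ≥0∞), rhoN m (x + y) ≤ rhoN m x + rhoN m y := by
  induction m with
  | zero =>
    intro x y
    simp only [rhoN]
    refine iSup_le fun n => ?_
    exact add_le_add (le_iSup x n) (le_iSup y n)
  | succ m ih =>
    intro x y
    simp only [rhoN]
    refine max_le ?_ (iSup_le fun p => ?_)
    · exact (ih x y).trans (add_le_add (le_max_left _ _) (le_max_left _ _))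
    · calc 2⁻¹ * ∑ i ∈ range p.1.1, rhoN m (ind (Set.Ico (p.1.2 i) (p.1.2 (i+1))) (x + y))
          ≤ 2⁻¹ * ∑ i ∈ range p.1.1, (rhoN m (ind (Set.Ico (p.1.2 i) (p.1.2 (i+1))) x)
              + rhoN m (ind (Set.Ico (p.1.2 i) (p.1.2 (i+1))) y)) := by
            gcongr with i hi
            rw [ind_add]
            exact ih _ _
        _ = 2⁻¹ * ∑ i ∈ range p.1.1, rhoN m (ind (Set.Ico (p.1.2 i) (p.1.2 (i+1))) x)
            + 2⁻¹ * ∑ i ∈ range p.1.1, rhoN m (ind (Set.Ico (p.1.2 i) (p.1.2 (i+1))) y) := by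
            rw [sum_add_distrib, mul_add]
        _ ≤ _ := by
            refine add_le_add ?_ ?_
            · exact (le_iSup (fun p : Adm => 2⁻¹ * ∑ i ∈ range p.1.1,
                rhoN m (ind (Set.Ico (p.1.2 i) (p.1.2 (i+1))) x)) p).trans (le_max_right _ _)
            · exact (le_iSup (fun p : Adm => 2⁻¹ * ∑ i ∈ range p.1.1,
                rhoN m (ind (Set.Ico (p.1.2 i) (p.1.2 (i+1))) y)) p).trans (le_max_right _ _)

lemma rho_add (x y : ℕ → ℝ≥0∞) : rho (x + y) ≤ rho x + rho y := by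
  refine iSup_le fun m => (rhoN_add m x y).trans ?_
  exact add_le_add (le_iSup (fun m => rhoN m x) m) (le_iSup (fun m => rhoN m y) m)

lemma rhoN_smul (m : ℕ) (c : ℝ≥0∞) : ∀ (x : ℕ → ℝ≥0∞), rhoN m (c • x) = c * rhoN m x := by
  induction m with
  | zero =>
    intro x
    simp only [rhoN]
    rw [ENNReal.mul_iSup]
    rfl
  | succ m ih =>
    intro x
    simp only [rhoN]
    have hm : Monotone (fun b : ℝ≥0∞ => c * b) := fun a b h => mul_le_mul' le_rfl h
    have hmm : ∀ a b : ℝ≥0∞, c * max a b = max (c * a) (c * b) := fun a b => hm.map_max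
    rw [ih, hmm, ENNReal.mul_iSup]
    congr 1
    refine iSup_congr fun p => ?_
    simp_rw [ind_smul, ih]
    rw [← mul_sum]
    ring

lemma rho_smul (c : ℝ≥0∞) (x : ℕ → ℝ≥0∞) : rho (c • x) = c * rho x := by
  unfold rho
  rw [ENNReal.mul_iSup]
  exact iSup_congr fun m => rhoN_smul m c x

lemma le_rho (x : ℕ → ℝ≥0∞) (n : ℕ) : x n ≤ rho x := by
  refine le_trans ?_ (le_iSup (fun m => rhoN m x) 0)
  simp only [rhoN]
  exact le_iSup x n

lemma sum_rho_le (x : ℕ → ℝ≥0∞) (k : ℕ) (t : ℕ → ℕ) (ht : Monotone t) (hk : k ≤ t 0 + 1) :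
    ∑ i ∈ range k, rho (ind (Set.Ico (t i) (t (i+1))) x) ≤ 2 * rho x := by
  have h1 : ∑ i ∈ range k, rho (ind (Set.Ico (t i) (t (i+1))) x)
      = ⨆ m, ∑ i ∈ range k, rhoN m (ind (Set.Ico (t i) (t (i+1))) x) := by
    unfold rho
    rw [ENNReal.finsetSum_iSup_of_monotone]
    intro i
    exact rhoN_monotone _
  rw [h1]
  refine iSup_le fun m => ?_
  have h2 : 2⁻¹ * ∑ i ∈ range k, rhoN m (ind (Set.Ico (t i) (t (i+1))) x) ≤ rho x := by
    refine le_trans ?_ (le_iSup (fun m => rhoN m x) (m+1))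
    simp only [rhoN]
    exact (le_iSup (fun p : Adm => 2⁻¹ * ∑ i ∈ range p.1.1,
                rhoN m (ind (Set.Ico (p.1.2 i) (p.1.2 (i+1))) x)) ⟨(k, t), ht, hk⟩).trans
                (le_max_right _ _)
  calc ∑ i ∈ range k, rhoN m (ind (Set.Ico (t i) (t (i+1))) x)
      = 2 * (2⁻¹ * ∑ i ∈ range k, rhoN m (ind (Set.Ico (t i) (t (i+1))) x)) := by
        rw [← mul_assoc, ENNReal.mul_inv_cancel (by norm_num) (by norm_num), one_mul]
    _ ≤ 2 * rho x := by gcongr

lemma rho_le_of (x : ℕ → ℝ≥0∞) (B : ℝ≥0∞) (h0 : ∀ n, x n ≤ B)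
    (h : ∀ (k : ℕ) (t : ℕ → ℕ), Monotone t → k ≤ t 0 + 1 →
      ∑ i ∈ range k, rho (ind (Set.Ico (t i) (t (i+1))) x) ≤ 2 * B) : rho x ≤ B := by
  refine iSup_le fun m => ?_
  induction m with
  | zero =>
    simp only [rhoN]
    exact iSup_le h0
  | succ m ih =>
    simp only [rhoN]
    refine max_le ih (iSup_le fun p => ?_)
    have h1 := h p.1.1 p.1.2 p.2.1 p.2.2
    calc 2⁻¹ * ∑ i ∈ range p.1.1, rhoN m (ind (Set.Ico (p.1.2 i) (p.1.2 (i+1))) x)
        ≤ 2⁻¹ * ∑ i ∈ range p.1.1, rho (ind (Set.Ico (p.1.2 i) (p.1.2 (i+1))) x) := by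
          gcongr with i hi
          exact le_iSup (fun m => rhoN m (ind (Set.Ico (p.1.2 i) (p.1.2 (i+1))) x)) m
      _ ≤ 2⁻¹ * (2 * B) := by gcongr
      _ = B := by
          rw [← mul_assoc, ENNReal.inv_mul_cancel (by norm_num) (by norm_num), one_mul]

/-- successive sets -/
def Succ (N : ℕ) (S : ℕ → Set ℕ) : Prop :=
  ∀ i j, i < j → j < N → ∀ a ∈ S i, ∀ b ∈ S j, a < b

lemma sum_tsum_ind_le (N : ℕ) (S : ℕ → Set ℕ) (hS : Succ N S) (G : Set ℕ)
    (hG : ∀ i < N, S i ⊆ G) (x : ℕ → ℝ≥0∞) :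
    ∑ i ∈ range N, ∑' n, ind (S i) x n ≤ ∑' n, ind G x n := by
  rw [← Summable.tsum_finsetSum (fun i _ => ENNReal.summable)]
  refine ENNReal.tsum_le_tsum fun n => ?_
  by_cases hex : ∃ i ∈ range N, n ∈ S i
  · obtain ⟨i, hi, hn⟩ := hex
    rw [Finset.sum_eq_single_of_mem i hi]
    · exact ind_subset (hG i (mem_range.1 hi)) x n
    · intro j hj hji
      refine ind_apply_notMem ?_ x
      intro hn'
      rcases lt_or_gt_of_ne hji with h | h
      · exact lt_irrefl _ (hS j i h (mem_range.1 hi) n hn' n hn)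
      · exact lt_irrefl _ (hS i j h (mem_range.1 hj) n hn n hn')
  · push Not at hex
    rw [Finset.sum_eq_zero]
    · exact bot_le
    · intro i hi
      exact ind_apply_notMem (hex i hi) x

lemma rhoN_le_tsum (m : ℕ) : ∀ x : ℕ → ℝ≥0∞, rhoN m x ≤ ∑' n, x n := by
  induction m with
  | zero =>
    intro x
    simp only [rhoN]
    exact iSup_le fun n => ENNReal.le_tsum n
  | succ m ih =>
    intro x
    simp only [rhoN]
    refine max_le (ih x) (iSup_le fun p => ?_)
    calc 2⁻¹ * ∑ i ∈ range p.1.1, rhoN m (ind (Set.Ico (p.1.2 i) (p.1.2 (i+1))) x)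
        ≤ 1 * ∑ i ∈ range p.1.1, ∑' n, ind (Set.Ico (p.1.2 i) (p.1.2 (i+1))) x n := by
          gcongr with i hi
          · norm_num
          · exact ih _
      _ ≤ ∑' n, ind Set.univ x n := by
          rw [one_mul]
          refine sum_tsum_ind_le _ (fun i => Set.Ico (p.1.2 i) (p.1.2 (i+1))) ?_ _
            (fun i _ => Set.subset_univ _) _
          intro i j hij _ a ha b hb
          exact lt_of_lt_of_le ha.2 ((p.2.1 (show i + 1 ≤ j by omega)).trans hb.1)
      _ = ∑' n, x n := by simp [ind]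

lemma rho_le_tsum (x : ℕ → ℝ≥0∞) : rho x ≤ ∑' n, x n := iSup_le fun m => rhoN_le_tsum m x

/-- bounded support -/
def Bdd (x : ℕ → ℝ≥0∞) : Prop := ∃ M, ∀ n, M ≤ n → x n = 0

lemma Bdd.of_le {x y : ℕ → ℝ≥0∞} (hy : Bdd y) (h : x ≤ y) : Bdd x := by
  obtain ⟨M, hM⟩ := hy
  exact ⟨M, fun n hn => le_antisymm ((h n).trans (hM n hn).le) bot_le⟩

lemma Bdd.ind {x : ℕ → ℝ≥0∞} (hx : Bdd x) (A : Set ℕ) : Bdd (ind A x) := hx.of_le (ind_le A x)

/-- general admissible families of successive sets -/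
lemma sum_fam_le (x : ℕ → ℝ≥0∞) (hx : Bdd x) (N : ℕ) (S : ℕ → Set ℕ) (hS : Succ N S)
    (hpos : ∀ i < N, ∀ a ∈ S i, N ≤ a + 1) :
    ∑ i ∈ range N, rho (ind (S i) x) ≤ 2 * rho x := by
  obtain ⟨M, hM⟩ := hx
  let U : ℕ → Set ℕ := fun i => {a | (∃ j, i ≤ j ∧ j < N ∧ a ∈ S j) ∨ a = max M N}
  let t : ℕ → ℕ := fun i => sInf (U i)
  have hne : ∀ i, (U i).Nonempty := fun i => ⟨max M N, Or.inr rfl⟩
  have ht : Monotone t := by
    intro i j hij
    refine Nat.sInf_le ?_
    rcases Nat.sInf_mem (hne j) with h | h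
    · obtain ⟨l, hl, hlN, hm⟩ := h
      exact Or.inl ⟨l, hij.trans hl, hlN, hm⟩
    · exact Or.inr h
  have hk : N ≤ t 0 + 1 := by
    rcases Nat.sInf_mem (hne 0) with h | h
    · obtain ⟨l, _, hlN, hm⟩ := h
      exact hpos l hlN _ hm
    · have : t 0 = max M N := h
      rw [this]
      omega
  refine le_trans (Finset.sum_le_sum fun i hi => ?_) (sum_rho_le x N t ht hk)
  apply rho_mono
  intro n
  have hiN := mem_range.1 hi
  by_cases hn : n ∈ S i
  · rw [ind_apply_mem hn]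
    by_cases hnM : max M N ≤ n
    · rw [hM n (le_trans (le_max_left _ _) hnM)]; exact bot_le
    · push Not at hnM
      have h1 : t i ≤ n := Nat.sInf_le (Or.inl ⟨i, le_rfl, hiN, hn⟩)
      have h2 : n < t (i + 1) := by
        rcases Nat.sInf_mem (hne (i+1)) with h | h
        · obtain ⟨l, hl, hlN, hm⟩ := h
          exact hS i l (by omega) hlN n hn _ hm
        · have : t (i + 1) = max M N := h
          rw [this]; exact hnM
      rw [ind_apply_mem (show n ∈ Set.Ico (t i) (t (i+1)) from ⟨h1, h2⟩)]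
  · rw [ind_apply_notMem hn]; exact bot_le

/-- a set on which the norm is equivalent to the `ℓ_1` norm -/
def L1 (c : ℝ≥0∞) (G : Set ℕ) : Prop := ∀ x, ∑' n, ind G x n ≤ c * rho (ind G x)

lemma tsum_ind_singleton (a : ℕ) (x : ℕ → ℝ≥0∞) : ∑' n, ind {a} x n = x a := by
  rw [tsum_eq_single a]
  · exact ind_apply_mem (Set.mem_singleton a) x
  · intro b hb
    exact ind_apply_notMem (by simpa using hb) x

lemma L1_singleton (a : ℕ) : L1 1 {a} := by
  intro x
  rw [tsum_ind_singleton, one_mul]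
  exact (ind_apply_mem (Set.mem_singleton a) x).symm.le.trans (le_rho _ a)

lemma L1.mono {c : ℝ≥0∞} {G H : Set ℕ} (h : L1 c G) (hH : H ⊆ G) : L1 c H := by
  intro x
  have h1 := h (Pool.Agent.H825R3.Tsi.ind H x)
  rw [ind_ind, Set.inter_eq_right.2 hH] at h1
  exact h1

/-- iterating: an admissible union of `c`-`ℓ_1` sets is `2c`-`ℓ_1` -/
lemma L1_iter {c : ℝ≥0∞} (N : ℕ) (t : ℕ → ℕ) (ht : Monotone t) (hN : N ≤ t 0 + 1)
    (h : ∀ i < N, L1 c (Set.Ico (t i) (t (i+1)))) : L1 (2 * c) (Set.Ico (t 0) (t N)) := by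
  intro x
  have key : ∀ m, ∑' n, ind (Set.Ico (t 0) (t m)) x n
      ≤ ∑ i ∈ range m, ∑' n, ind (Set.Ico (t i) (t (i+1))) x n := by
    intro m
    induction m with
    | zero => simp [ind]
    | succ m ih =>
      rw [Finset.sum_range_succ]
      refine le_trans ?_ (add_le_add_left ih _)
      rw [← ENNReal.tsum_add]
      refine ENNReal.tsum_le_tsum fun n => ?_
      by_cases hn : n ∈ Set.Ico (t 0) (t (m+1))
      · rw [ind_apply_mem hn]
        by_cases hn2 : n < t m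
        · rw [ind_apply_mem (show n ∈ Set.Ico (t 0) (t m) from ⟨hn.1, hn2⟩)]
          exact le_self_add
        · rw [ind_apply_mem (show n ∈ Set.Ico (t m) (t (m+1)) from ⟨not_lt.1 hn2, hn.2⟩)]
          exact le_add_self
      · rw [ind_apply_notMem hn]; exact bot_le
  calc ∑' n, ind (Set.Ico (t 0) (t N)) x n
      ≤ ∑ i ∈ range N, ∑' n, ind (Set.Ico (t i) (t (i+1))) x n := key N
    _ ≤ ∑ i ∈ range N, c * rho (ind (Set.Ico (t i) (t (i+1))) x) :=
        Finset.sum_le_sum fun i hi => h i (mem_range.1 hi) x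
    _ = c * ∑ i ∈ range N, rho (ind (Set.Ico (t i) (t (i+1)))
          (ind (Set.Ico (t 0) (t N)) x)) := by
        rw [mul_sum]
        refine Finset.sum_congr rfl fun i hi => ?_
        rw [ind_ind, Set.inter_eq_left.2]
        intro n hn
        have hi' := mem_range.1 hi
        exact ⟨(ht (Nat.zero_le i)).trans hn.1, lt_of_lt_of_le hn.2 (ht (by omega))⟩
    _ ≤ c * (2 * rho (ind (Set.Ico (t 0) (t N)) x)) := by
        gcongr
        exact sum_rho_le _ N t ht hN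
    _ = 2 * c * rho (ind (Set.Ico (t 0) (t N)) x) := by ring

/-- doubling intervals are `2`-`ℓ_1` -/
lemma L1_double (a : ℕ) : L1 2 (Set.Ico a (2 * a + 1)) := by
  have := L1_iter (c := 1) (a + 1) (fun i => a + i) (fun i j h => by simpa using h) (by simp)
    (fun i _ => by
      have : Set.Ico (a + i) (a + (i + 1)) = {a + i} := by
        ext n; simp only [Set.mem_Ico, Set.mem_singleton_iff]; omega
      rw [this]
      exact L1_singleton _)
  have h2 : a + (a + 1) = 2 * a + 1 := by ring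
  simpa [h2] using this

/-- the iterated function of a growth function -/
lemma L1_next {c : ℝ≥0∞} (h : ℕ → ℕ) (hle : ∀ a, a ≤ h a)
    (hL : ∀ a, L1 c (Set.Ico a (h a))) (a : ℕ) : L1 (2 * c) (Set.Ico a (h^[a+1] a)) := by
  have := L1_iter (c := c) (a + 1) (fun i => h^[i] a)
    (monotone_nat_of_le_succ fun n => by
      rw [Function.iterate_succ_apply']
      exact hle _) (by simp)
    (fun i _ => by
      rw [Function.iterate_succ_apply']
      exact hL _)
  simpa using this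

end Pool.Agent.H825R3.Tsi
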