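import Mathlib
import Pool.Agent.H825R3.Tsi.Rho

set_option autoImplicit false
open scoped ENNReal
open Finset

namespace Pool.Agent.H825R3.Tsi

/-- norming functionals -/
inductive K : (ℕ → ℝ≥0∞) → Prop
  | unit (n : ℕ) : K (Pi.single n 1)
  | half (k : ℕ) (t : ℕ → ℕ) (ht : Monotone t) (hk : k ≤ t 0 + 1) (f : ℕ → ℕ → ℝ≥0∞)
      (hf : ∀ i, K (f i)) :
      K (fun n => 2⁻¹ * ∑ i ∈ range k, ind (Set.Ico (t i) (t (i+1))) (f i) n)

/-- pairing -/
noncomputable def pr (f x : ℕ → ℝ≥0∞) : ℝ≥0∞ := ∑' n, f n * x n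

lemma pr_add (f x y : ℕ → ℝ≥0∞) : pr f (x + y) = pr f x + pr f y := by
  unfold pr
  rw [← ENNReal.tsum_add]
  refine tsum_congr fun n => ?_
  rw [Pi.add_apply, mul_add]

lemma pr_mono (f : ℕ → ℝ≥0∞) {x y : ℕ → ℝ≥0∞} (h : x ≤ y) : pr f x ≤ pr f y :=
  ENNReal.tsum_le_tsum fun n => mul_le_mul' le_rfl (h n)

lemma pr_unit (n : ℕ) (x : ℕ → ℝ≥0∞) : pr (Pi.single n 1) x = x n := by
  unfold pr
  rw [tsum_eq_single n]
  · simp
  · intro m hm
    simp [hm]

lemma pr_ind_comm (A : Set ℕ) (f x : ℕ → ℝ≥0∞) : pr (ind A f) x = pr f (ind A x) := by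
  unfold pr
  refine tsum_congr fun n => ?_
  by_cases hn : n ∈ A
  · rw [ind_apply_mem hn, ind_apply_mem hn]
  · rw [ind_apply_notMem hn, ind_apply_notMem hn, zero_mul, mul_zero]

lemma pr_half (k : ℕ) (t : ℕ → ℕ) (f : ℕ → ℕ → ℝ≥0∞) (x : ℕ → ℝ≥0∞) :
    pr (fun n => 2⁻¹ * ∑ i ∈ range k, ind (Set.Ico (t i) (t (i+1))) (f i) n) x
      = 2⁻¹ * ∑ i ∈ range k, pr (f i) (ind (Set.Ico (t i) (t (i+1))) x) := by
  unfold pr
  rw [← Summable.tsum_finsetSum (fun i _ => ENNReal.summable), ← ENNReal.tsum_mul_left]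
  refine tsum_congr fun n => ?_
  rw [mul_assoc, Finset.sum_mul]
  congr 1
  refine Finset.sum_congr rfl fun i _ => ?_
  by_cases hn : n ∈ Set.Ico (t i) (t (i+1))
  · rw [ind_apply_mem hn, ind_apply_mem hn]
  · rw [ind_apply_notMem hn, ind_apply_notMem hn, zero_mul, mul_zero]

lemma K.pr_le {f : ℕ → ℝ≥0∞} (hf : K f) : ∀ x, pr f x ≤ rho x := by
  induction hf with
  | unit n => intro x; rw [pr_unit]; exact le_rho x n
  | half k t ht hk f hf ih =>
    intro x
    rw [pr_half]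
    calc 2⁻¹ * ∑ i ∈ range k, pr (f i) (ind (Set.Ico (t i) (t (i+1))) x)
        ≤ 2⁻¹ * ∑ i ∈ range k, rho (ind (Set.Ico (t i) (t (i+1))) x) := by
          gcongr with i hi
          exact ih i _
      _ ≤ 2⁻¹ * (2 * rho x) := by
          gcongr
          exact sum_rho_le x k t ht hk
      _ = rho x := by
          rw [← mul_assoc, ENNReal.inv_mul_cancel (by norm_num) (by norm_num), one_mul]

/-- finite sums of suprema -/
lemma sum_iSup_le {J : Type*} [Nonempty J] (B : ℝ≥0∞) (F : ℕ → J → ℝ≥0∞) (k : ℕ) :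
    ∀ C : ℝ≥0∞, (∀ φ : ℕ → J, (∑ i ∈ range k, F i (φ i)) + C ≤ B) →
      (∑ i ∈ range k, (⨆ j, F i j)) + C ≤ B := by
  induction k with
  | zero => intro C h; simpa using h (fun _ => Classical.arbitrary J)
  | succ k ih =>
    intro C h
    rw [Finset.sum_range_succ, add_assoc, ENNReal.iSup_add, ENNReal.add_iSup]
    refine iSup_le fun j => ih (F k j + C) fun φ => ?_
    have := h (fun i => if i = k then j else φ i)
    rw [Finset.sum_range_succ] at this
    simp only [if_true] at this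
    rw [add_assoc] at this
    refine le_trans (le_of_eq ?_) this
    congr 1
    refine Finset.sum_congr rfl fun i hi => ?_
    rw [if_neg (by have := mem_range.1 hi; omega)]

lemma rho_le_of_K (x : ℕ → ℝ≥0∞) (B : ℝ≥0∞) (h : ∀ f, K f → pr f x ≤ B) : rho x ≤ B := by
  have : Nonempty {f : ℕ → ℝ≥0∞ // K f} := ⟨⟨_, K.unit 0⟩⟩
  have key : ∀ m, ∀ x, rhoN m x ≤ ⨆ f : {f : ℕ → ℝ≥0∞ // K f}, pr f.1 x := by
    intro m
    induction m with
    | zero =>
      intro x
      simp only [rhoN]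
      refine iSup_le fun n => ?_
      rw [← pr_unit n x]
      exact le_iSup (fun f : {f : ℕ → ℝ≥0∞ // K f} => pr f.1 x) ⟨_, K.unit n⟩
    | succ m ih =>
      intro x
      simp only [rhoN]
      refine max_le (ih x) (iSup_le fun p => ?_)
      obtain ⟨⟨k, t⟩, ht, hk⟩ := p
      simp only at ht hk ⊢
      have h1 : ∑ i ∈ range k, (⨆ f : {f : ℕ → ℝ≥0∞ // K f},
          pr f.1 (ind (Set.Ico (t i) (t (i+1))) x)) + 0 ≤
          2 * ⨆ f : {f : ℕ → ℝ≥0∞ // K f}, pr f.1 x := by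
        apply sum_iSup_le
        intro φ
        rw [add_zero]
        have h2 := le_iSup (fun f : {f : ℕ → ℝ≥0∞ // K f} => pr f.1 x)
          ⟨_, K.half k t ht hk (fun i => (φ i).1) (fun i => (φ i).2)⟩
        simp only [pr_half] at h2
        calc ∑ i ∈ range k, pr (φ i).1 (ind (Set.Ico (t i) (t (i+1))) x)
            = 2 * (2⁻¹ * ∑ i ∈ range k, pr (φ i).1 (ind (Set.Ico (t i) (t (i+1))) x)) := by
              rw [← mul_assoc, ENNReal.mul_inv_cancel (by norm_num) (by norm_num), one_mul]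
          _ ≤ _ := by gcongr
      rw [add_zero] at h1
      calc 2⁻¹ * ∑ i ∈ range k, rhoN m (ind (Set.Ico (t i) (t (i+1))) x)
          ≤ 2⁻¹ * ∑ i ∈ range k, (⨆ f : {f : ℕ → ℝ≥0∞ // K f},
            pr f.1 (ind (Set.Ico (t i) (t (i+1))) x)) := by
            gcongr with i hi
            exact ih _
        _ ≤ 2⁻¹ * (2 * ⨆ f : {f : ℕ → ℝ≥0∞ // K f}, pr f.1 x) := by gcongr
        _ = ⨆ f : {f : ℕ → ℝ≥0∞ // K f}, pr f.1 x := by
            rw [← mul_assoc, ENNReal.inv_mul_cancel (by norm_num) (by norm_num), one_mul]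
  refine iSup_le fun m => (key m x).trans (iSup_le fun f => h f.1 f.2)

/-! ### Regrouping -/

lemma Succ.inter {N : ℕ} {S : ℕ → Set ℕ} (hS : Succ N S) (G : Set ℕ) :
    Succ N (fun i => S i ∩ G) :=
  fun i j hij hj a ha b hb => hS i j hij hj a ha.1 b hb.1

/-- groups of indices -/
def grp (k : ℕ) : ℕ → Set ℕ
  | 0 => Set.Ico (k - 1) (2 * k - 1)
  | 1 => Set.Ico (2 * k - 1) (4 * k - 1)
  | 2 => Set.Ico (4 * k - 1) (8 * k - 1)
  | _ => Set.Ici (8 * k - 1)

lemma regroup_one {c : ℝ≥0∞} (b : ℕ → ℝ≥0∞) (N : ℕ) (S : ℕ → Set ℕ)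
    (hS : Succ N S) (G : Set ℕ) (hG : L1 c G) :
    ∑ i ∈ range N, rho (ind (S i ∩ G) b) ≤ c * rho (ind G b) :=
  calc ∑ i ∈ range N, rho (ind (S i ∩ G) b)
      ≤ ∑ i ∈ range N, ∑' n, ind (S i ∩ G) b n :=
        Finset.sum_le_sum fun i _ => rho_le_tsum _
    _ ≤ ∑' n, ind G b n :=
        sum_tsum_ind_le N _ (hS.inter G) G (fun i _ => Set.inter_subset_right) b
    _ ≤ c * rho (ind G b) := hG b

lemma regroup (b : ℕ → ℝ≥0∞) (hb : Bdd b) (k : ℕ) (hk : 1 ≤ k) (N : ℕ) (hN : N ≤ 8 * k)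
    (S : ℕ → Set ℕ) (hS : Succ N S) (hpos : ∀ i < N, ∀ a ∈ S i, k ≤ a + 1) :
    ∑ i ∈ range N, rho (ind (S i) b) ≤ 2 * ∑ j ∈ range 4, rho (ind (grp k j) b) := by
  have h0 : L1 2 (grp k 0) := by
    have := L1_double (k - 1)
    have h2 : 2 * (k - 1) + 1 = 2 * k - 1 := by omega
    rw [h2] at this
    exact this
  have h1 : L1 2 (grp k 1) := by
    have := L1_double (2 * k - 1)
    have h2 : 2 * (2 * k - 1) + 1 = 4 * k - 1 := by omega
    rw [h2] at this
    exact this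
  have h2 : L1 2 (grp k 2) := by
    have := L1_double (4 * k - 1)
    have h2 : 2 * (4 * k - 1) + 1 = 8 * k - 1 := by omega
    rw [h2] at this
    exact this
  have h3 : ∑ i ∈ range N, rho (ind (S i ∩ grp k 3) b) ≤ 2 * rho (ind (grp k 3) b) := by
    have := sum_fam_le (ind (grp k 3) b) (hb.ind _) N (fun i => S i ∩ grp k 3) (hS.inter _)
      (fun i _ a ha => by
        have : 8 * k - 1 ≤ a := ha.2
        omega)
    simp only [ind_ind] at this
    refine le_trans (le_of_eq ?_) this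
    refine Finset.sum_congr rfl fun i _ => ?_
    rw [Set.inter_assoc, Set.inter_self]
  have hsplit : ∀ i ∈ range N, rho (ind (S i) b) ≤
      rho (ind (S i ∩ grp k 0) b) + rho (ind (S i ∩ grp k 1) b) +
      rho (ind (S i ∩ grp k 2) b) + rho (ind (S i ∩ grp k 3) b) := by
    intro i hi
    refine le_trans (rho_mono ?_) (le_trans (rho_add (ind (S i ∩ grp k 0) b +
      ind (S i ∩ grp k 1) b + ind (S i ∩ grp k 2) b) _) (add_le_add_left (le_trans
      (rho_add _ _) (add_le_add_left (rho_add _ _) _)) _))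
    intro n
    by_cases hn : n ∈ S i
    · rw [ind_apply_mem hn]
      have hkn := hpos i (mem_range.1 hi) n hn
      simp only [Pi.add_apply]
      by_cases c0 : n < 2 * k - 1
      · rw [ind_apply_mem (show n ∈ S i ∩ grp k 0 from ⟨hn, by
          show k - 1 ≤ n ∧ n < 2 * k - 1; omega⟩), add_assoc, add_assoc]
        exact le_self_add
      by_cases c1 : n < 4 * k - 1
      · rw [ind_apply_mem (show n ∈ S i ∩ grp k 1 from ⟨hn, by
          show 2 * k - 1 ≤ n ∧ n < 4 * k - 1; omega⟩)]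
        calc b n ≤ ind (S i ∩ grp k 0) b n + b n := le_add_self
          _ ≤ _ := by rw [add_assoc]; exact le_self_add
      by_cases c2 : n < 8 * k - 1
      · rw [ind_apply_mem (show n ∈ S i ∩ grp k 2 from ⟨hn, by
          show 4 * k - 1 ≤ n ∧ n < 8 * k - 1; omega⟩)]
        calc b n ≤ (ind (S i ∩ grp k 0) b n + ind (S i ∩ grp k 1) b n) + b n := le_add_self
          _ ≤ _ := le_self_add
      · rw [ind_apply_mem (show n ∈ S i ∩ grp k 3 from ⟨hn, by
          show 8 * k - 1 ≤ n; omega⟩)]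
        exact le_add_self
    · rw [ind_apply_notMem hn]; exact bot_le
  calc ∑ i ∈ range N, rho (ind (S i) b)
      ≤ ∑ i ∈ range N, (rho (ind (S i ∩ grp k 0) b) + rho (ind (S i ∩ grp k 1) b) +
        rho (ind (S i ∩ grp k 2) b) + rho (ind (S i ∩ grp k 3) b)) :=
        Finset.sum_le_sum hsplit
    _ = ∑ i ∈ range N, rho (ind (S i ∩ grp k 0) b) + ∑ i ∈ range N, rho (ind (S i ∩ grp k 1) b)
        + ∑ i ∈ range N, rho (ind (S i ∩ grp k 2) b)
        + ∑ i ∈ range N, rho (ind (S i ∩ grp k 3) b) := by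
        rw [sum_add_distrib, sum_add_distrib, sum_add_distrib]
    _ ≤ 2 * rho (ind (grp k 0) b) + 2 * rho (ind (grp k 1) b) + 2 * rho (ind (grp k 2) b)
        + 2 * rho (ind (grp k 3) b) :=
        add_le_add (add_le_add (add_le_add (regroup_one b N S hS _ h0)
          (regroup_one b N S hS _ h1)) (regroup_one b N S hS _ h2)) h3
    _ = 2 * ∑ j ∈ range 4, rho (ind (grp k j) b) := by
        simp only [Finset.sum_range_succ, Finset.sum_range_zero, zero_add]
        ring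

/-- flattening a double sum -/
lemma sum_flat (F : ℕ → ℕ → ℝ≥0∞) (k : ℕ) :
    ∑ l ∈ range (6 * k), F (l / 6) (l % 6) = ∑ j ∈ range k, ∑ i ∈ range 6, F j i := by
  induction k with
  | zero => simp
  | succ k ih =>
    rw [show 6 * (k + 1) = 6 * k + 1 + 1 + 1 + 1 + 1 + 1 by ring, Finset.sum_range_succ,
      Finset.sum_range_succ, Finset.sum_range_succ, Finset.sum_range_succ,
      Finset.sum_range_succ, Finset.sum_range_succ, ih, Finset.sum_range_succ]
    simp only [Finset.sum_range_succ, Finset.sum_range_zero, zero_add]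
    have e0 : (6 * k) / 6 = k ∧ (6 * k) % 6 = 0 := by omega
    have e1 : (6 * k + 1) / 6 = k ∧ (6 * k + 1) % 6 = 1 := by omega
    have e2 : (6 * k + 1 + 1) / 6 = k ∧ (6 * k + 1 + 1) % 6 = 2 := by omega
    have e3 : (6 * k + 1 + 1 + 1) / 6 = k ∧ (6 * k + 1 + 1 + 1) % 6 = 3 := by omega
    have e4 : (6 * k + 1 + 1 + 1 + 1) / 6 = k ∧ (6 * k + 1 + 1 + 1 + 1) % 6 = 4 := by omega
    have e5 : (6 * k + 1 + 1 + 1 + 1 + 1) / 6 = k ∧ (6 * k + 1 + 1 + 1 + 1 + 1) % 6 = 5 := by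
      omega
    rw [e0.1, e0.2, e1.1, e1.2, e2.1, e2.2, e3.1, e3.2, e4.1, e4.2, e5.1, e5.2]
    ring

end Pool.Agent.H825R3.Tsi
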