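import Mathlib
import Pool.Agent.H825R3.Tsi.Func

set_option autoImplicit false
open scoped ENNReal
open Finset

namespace Pool.Agent.H825R3.Tsi

lemma ind_empty (x : ℕ → ℝ≥0∞) : ind ∅ x = 0 := by
  unfold ind
  exact Set.indicator_empty _

lemma rho_zero : rho 0 = 0 := by
  refine le_antisymm ((rho_le_tsum 0).trans ?_) bot_le
  simp

lemma pr_zero (f : ℕ → ℝ≥0∞) : pr f 0 = 0 := by
  unfold pr
  simp

lemma pr_sum {ι : Type*} (f : ℕ → ℝ≥0∞) (s : Finset ι) (g : ι → ℕ → ℝ≥0∞) :
    pr f (∑ i ∈ s, g i) = ∑ i ∈ s, pr f (g i) := by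
  classical
  induction s using Finset.induction_on with
  | empty => simp [pr_zero]
  | insert a s ha ih => rw [Finset.sum_insert ha, Finset.sum_insert ha, pr_add, ih]

/-- blocks -/
def blk (p : ℕ → ℕ) (m : ℕ) : Set ℕ := Set.Ico (p m + 1) (p (m+1) + 1)

/-- the sequence of norms of the blocks, placed at the left ends -/
noncomputable def bb (p : ℕ → ℕ) (x : ℕ → ℝ≥0∞) : ℕ → ℝ≥0∞ :=
  fun n => ⨆ m, ⨆ (_ : p m = n), rho (ind (blk p m) x)

lemma bb_apply {p : ℕ → ℕ} (hp : StrictMono p) (x : ℕ → ℝ≥0∞) (m : ℕ) :
    bb p x (p m) = rho (ind (blk p m) x) := by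
  unfold bb
  refine le_antisymm (iSup_le fun m' => iSup_le fun h => ?_) ?_
  · rw [hp.injective h]
  · exact le_iSup_of_le m (le_iSup_of_le rfl le_rfl)

lemma bb_le {p : ℕ → ℕ} {x : ℕ → ℝ≥0∞} {n : ℕ} {B : ℝ≥0∞}
    (h : ∀ m, p m = n → rho (ind (blk p m) x) ≤ B) : bb p x n ≤ B :=
  iSup_le fun m => iSup_le fun hm => h m hm

lemma bb_bdd {p : ℕ → ℕ} {x : ℕ → ℝ≥0∞} (hx : Bdd x) : Bdd (bb p x) := by
  obtain ⟨M, hM⟩ := hx
  refine ⟨M, fun n hn => le_antisymm (bb_le fun m hm => ?_) bot_le⟩
  have : ind (blk p m) x = 0 := by
    funext a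
    by_cases ha : a ∈ blk p m
    · rw [ind_apply_mem ha]
      exact hM a (by have := ha.1; omega)
    · exact ind_apply_notMem ha x
  rw [this, rho_zero]

/-- the least `m` with `n ≤ p m` -/
noncomputable def idx (p : ℕ → ℕ) (n : ℕ) : ℕ := sInf {m | n ≤ p m}

section
variable {p : ℕ → ℕ} (hp : StrictMono p)
include hp

lemma idx_ne (n : ℕ) : {m | n ≤ p m}.Nonempty := ⟨n, hp.le_apply⟩

lemma le_p_idx (n : ℕ) : n ≤ p (idx p n) := Nat.sInf_mem (idx_ne hp n)

omit hp in
lemma idx_le {n m : ℕ} (h : n ≤ p m) : idx p n ≤ m := Nat.sInf_le h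

omit hp in
lemma lt_of_lt_idx {n m : ℕ} (h : m < idx p n) : p m < n := by
  by_contra hc
  exact absurd (idx_le (not_lt.1 hc)) (not_le.2 h)

lemma idx_mono {n m : ℕ} (h : n ≤ m) : idx p n ≤ idx p m :=
  idx_le (h.trans (le_p_idx hp m))

lemma lt_idx {n m : ℕ} (h : p m < n) : m < idx p n := by
  by_contra hc
  have := (le_p_idx hp n).trans (hp.monotone (not_lt.1 hc))
  omega

end

lemma mem_blk_idx {p : ℕ → ℕ} (hp : StrictMono p) {n : ℕ} (h : p 0 < n) :
    1 ≤ idx p n ∧ n ∈ blk p (idx p n - 1) := by
  have h1 : 1 ≤ idx p n := lt_idx hp h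
  refine ⟨h1, ?_, ?_⟩
  · exact lt_of_lt_idx (show idx p n - 1 < idx p n by omega)
  · have := le_p_idx hp n
    rw [show idx p n - 1 + 1 = idx p n by omega]
    omega

/-- The main upper estimate, for functionals. -/
theorem upper_aux {p : ℕ → ℕ} (hp : StrictMono p) {f : ℕ → ℝ≥0∞} (hf : K f) :
    ∀ x, Bdd x → (∀ n, n ≤ p 0 → x n = 0) →
      ∃ A : ℕ → Set ℕ, Succ 5 A ∧ pr f x ≤ 2 * ∑ i ∈ range 5, rho (ind (A i) (bb p x)) := by
  classical
  induction hf with
  | unit n =>
    intro x hx h0
    refine ⟨fun i => if i = 0 then Set.univ else ∅, ?_, ?_⟩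
    · intro i j hij _ a _ b hb
      simp only [show j ≠ 0 by omega, if_false] at hb
      exact absurd hb (Set.notMem_empty b)
    · rw [pr_unit]
      by_cases hn : n ≤ p 0
      · rw [h0 n hn]; exact bot_le
      · obtain ⟨h1, h2⟩ := mem_blk_idx hp (not_le.1 hn)
        calc x n = ind (blk p (idx p n - 1)) x n := (ind_apply_mem h2 x).symm
          _ ≤ rho (ind (blk p (idx p n - 1)) x) := le_rho _ n
          _ = bb p x (p (idx p n - 1)) := (bb_apply hp x _).symm
          _ ≤ rho (bb p x) := le_rho _ _
          _ = rho (ind Set.univ (bb p x)) := by simp [ind]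
          _ ≤ ∑ i ∈ range 5, rho (ind (if i = 0 then Set.univ else ∅) (bb p x)) := by
              have := Finset.single_le_sum (f := fun i => rho (ind (if i = 0 then Set.univ
                else ∅) (bb p x))) (fun i _ => zero_le) (mem_range.2 (show 0 < 5 by norm_num))
              simpa using this
          _ ≤ 2 * _ := by
              conv_lhs => rw [← one_mul (∑ i ∈ range 5, rho (ind (if i = 0 then Set.univ
                else ∅) (bb p x)))]
              gcongr
              norm_num
  | half k t ht hk f hf ih =>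
    intro x hx h0
    rcases Nat.eq_zero_or_pos k with rfl | hk1
    · refine ⟨fun _ => ∅, fun i j _ _ a ha => absurd ha (Set.notMem_empty a), ?_⟩
      rw [pr_half]
      simp
    let M : ℕ → ℕ := fun j => idx p (t j)
    have hM : Monotone M := fun i j hij => idx_mono hp (ht hij)
    let μ := M 0
    let D : ℕ → Set ℕ := fun j => if M j < M (j+1) then blk p (M (j+1) - 1) else ∅
    let I : ℕ → Set ℕ := fun j => Set.Ico (p (M j) + 1) (p (M (j+1) - 1) + 1)
    let F : ℕ → ℝ≥0∞ := fun n => 2⁻¹ * ∑ i ∈ range k, ind (Set.Ico (t i) (t (i+1))) (f i) n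
    have hKF : K F := K.half k t ht hk f hf
    let yF : ℕ → ℝ≥0∞ := if 1 ≤ μ then ind (blk p (μ - 1)) x else 0
    let yD : ℕ → ℝ≥0∞ := ∑ j ∈ range k, ind (D j) x
    -- the pointwise decomposition
    have hpt : ∀ j ∈ range k, ind (Set.Ico (t j) (t (j+1))) x ≤
        ind (Set.Ico (t j) (t (j+1))) yF + ind (Set.Ico (t j) (t (j+1))) yD + ind (I j) x := by
      intro j hj n
      have hjk := mem_range.1 hj
      by_cases hn : n ∈ Set.Ico (t j) (t (j+1))
      swap
      · rw [ind_apply_notMem hn]; exact bot_le
      simp only [Pi.add_apply]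
      rw [ind_apply_mem hn, ind_apply_mem hn, ind_apply_mem hn]
      by_cases hnμ : n ≤ p μ
      · by_cases hμ : 1 ≤ μ
        · have hmem : n ∈ blk p (μ - 1) := by
            refine ⟨?_, ?_⟩
            · have h1 : p (μ - 1) < t 0 := lt_of_lt_idx (show μ - 1 < μ by omega)
              have h2 : t 0 ≤ t j := ht (Nat.zero_le j)
              have h3 := hn.1
              omega
            · rw [show μ - 1 + 1 = μ by omega]; omega
          have : yF n = x n := by
            simp only [yF, hμ, if_true]
            exact ind_apply_mem hmem x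
          rw [this, add_assoc]
          exact le_self_add
        · have : μ = 0 := by omega
          rw [this] at hnμ
          rw [h0 n hnμ]; exact bot_le
      · push Not at hnμ
        have hn0 : p 0 < n := lt_of_le_of_lt (hp.monotone (Nat.zero_le μ)) hnμ
        obtain ⟨h1, h2⟩ := mem_blk_idx hp hn0
        set m := idx p n - 1 with hm
        have hm1 : m + 1 = idx p n := by omega
        have hlo : M j ≤ m + 1 := by rw [hm1]; exact idx_mono hp hn.1
        have hhi : m + 1 ≤ M (j+1) := by rw [hm1]; exact idx_mono hp hn.2.le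
        have hμm : μ < m + 1 := by rw [hm1]; exact lt_idx hp hnμ
        have hD : ∀ j' < k, M j' < M (j'+1) → M (j'+1) = m + 1 → x n ≤ yD n := by
          intro j' hj' hlt heq
          have : ind (D j') x n ≤ yD n := by
            simp only [yD, Finset.sum_apply]
            exact Finset.single_le_sum (f := fun j => ind (D j) x n) (fun i _ => zero_le)
              (mem_range.2 hj')
          refine le_trans ?_ this
          have hmem : n ∈ D j' := by
            show n ∈ (if M j' < M (j'+1) then blk p (M (j'+1) - 1) else ∅)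
            rw [if_pos hlt, heq]
            exact h2
          rw [ind_apply_mem hmem]
        rcases hlo.eq_or_lt with hlo | hlo
        · -- find the first time the value is reached
          have hex : ∃ i, M i = m + 1 := ⟨j, hlo⟩
          have hfirst := Nat.find_spec hex
          set i₀ := Nat.find hex with hi₀
          have hi₀j : i₀ ≤ j := Nat.find_min' hex hlo
          have hi₀0 : i₀ ≠ 0 := by
            intro h
            rw [h] at hfirst
            have : μ = m + 1 := hfirst
            omega
          have hprev : M (i₀ - 1) ≠ m + 1 := Nat.find_min hex (by omega)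
          have hle : M (i₀ - 1) ≤ M i₀ := hM (by omega)
          have := hD (i₀ - 1) (by omega) (by
            rw [show i₀ - 1 + 1 = i₀ by omega]
            omega) (by
            rw [show i₀ - 1 + 1 = i₀ by omega]
            exact hfirst)
          calc x n ≤ yD n := this
            _ ≤ yF n + yD n := le_add_self
            _ ≤ _ := le_self_add
        · rcases hhi.eq_or_lt with hhi | hhi
          · have := hD j hjk (by omega) hhi.symm
            calc x n ≤ yD n := this
              _ ≤ yF n + yD n := le_add_self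
              _ ≤ _ := le_self_add
          · have hmem : n ∈ I j := by
              refine ⟨?_, ?_⟩
              · have h3 : p (M j) ≤ p m := hp.monotone (by omega)
                have h4 := h2.1
                omega
              · have h3 : p (m + 1) ≤ p (M (j+1) - 1) := hp.monotone (by omega)
                have h4 := h2.2
                omega
            rw [ind_apply_mem hmem]
            exact le_add_self
    have hsum : pr F x ≤ pr F yF + pr F yD + 2⁻¹ * ∑ j ∈ range k, pr (f j) (ind (I j) x) := by
      have e1 : pr F x = 2⁻¹ * ∑ i ∈ range k, pr (f i) (ind (Set.Ico (t i) (t (i+1))) x) :=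
        pr_half k t f x
      have e2 : pr F yF = 2⁻¹ * ∑ i ∈ range k, pr (f i) (ind (Set.Ico (t i) (t (i+1))) yF) :=
        pr_half k t f yF
      have e3 : pr F yD = 2⁻¹ * ∑ i ∈ range k, pr (f i) (ind (Set.Ico (t i) (t (i+1))) yD) :=
        pr_half k t f yD
      rw [e1, e2, e3, ← mul_add, ← mul_add, ← sum_add_distrib, ← sum_add_distrib]
      gcongr with j hj
      rw [← pr_add, ← pr_add]
      exact pr_mono _ (hpt j hj)
    -- use of the induction hypothesis
    have hbdI : ∀ j, Bdd (ind (I j) x) := fun j => hx.ind _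
    have h0I : ∀ j, ∀ n, n ≤ p 0 → ind (I j) x n = 0 := fun j n hn =>
      le_antisymm ((ind_le _ _ n).trans (h0 n hn).le) bot_le
    choose A hA1 hA2 using fun j => ih j (ind (I j) x) (hbdI j) (h0I j)
    let Q : ℕ → Set ℕ := fun j => Set.Ico (p (M j)) (p (M (j+1) - 1))
    let S' : ℕ → ℕ → Set ℕ := fun j i =>
      if M j < M (j+1) then (if i < 5 then A j i ∩ Q j else {p (M (j+1) - 1)}) else ∅
    let S : ℕ → Set ℕ := fun l => S' (l / 6) (l % 6)
    have hlow : ∀ j i, ∀ a ∈ S' j i, p (M j) ≤ a ∧ M j < M (j+1) ∧ a ≤ p (M (j+1) - 1) := by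
      intro j i a ha
      simp only [S'] at ha
      split_ifs at ha with h1 h2
      · exact ⟨ha.2.1, h1, ha.2.2.le⟩
      · rw [Set.mem_singleton_iff] at ha
        rw [ha]
        exact ⟨hp.monotone (by omega), h1, le_rfl⟩
      · exact absurd ha (Set.notMem_empty _)
    have hSsucc : Succ (6 * k) S := by
      intro l l' hll hl' a ha b hb
      simp only [S] at ha hb
      have hj : l / 6 ≤ l' / 6 := Nat.div_le_div_right hll.le
      rcases hj.eq_or_lt with hj | hj
      · have hi : l % 6 < l' % 6 := by omega
        rw [← hj] at hb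
        simp only [S'] at ha hb
        split_ifs at ha hb with h1 h2 h3 h4
        · exact hA1 (l / 6) _ _ hi h3 a ha.1 b hb.1
        · rw [Set.mem_singleton_iff] at hb
          rw [hb]
          exact ha.2.2
        · omega
        · omega
        · exact absurd ha (Set.notMem_empty _)
      · have h1 := hlow _ _ a ha
        have h2 := hlow _ _ b hb
        have h3 : p (M (l / 6 + 1) - 1) < p (M (l / 6 + 1)) := hp (by omega)
        have h4 : p (M (l / 6 + 1)) ≤ p (M (l' / 6)) := hp.monotone (hM (by omega))
        omega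
    have hSμ : ∀ l, S l ⊆ Set.Ici (p μ) := by
      intro l a ha
      have h1 := (hlow _ _ a ha).1
      have h2 : p μ ≤ p (M (l / 6)) := hp.monotone (hM (Nat.zero_le _))
      exact h2.trans h1
    have hpos : ∀ l < 6 * k, ∀ a ∈ S l, k ≤ a + 1 := by
      intro l _ a ha
      have h1 : p μ ≤ a := hSμ l ha
      have h2 : t 0 ≤ p μ := le_p_idx hp (t 0)
      omega
    let b' : ℕ → ℝ≥0∞ := ind (Set.Ici (p μ)) (bb p x)
    have hreg := regroup b' ((bb_bdd hx).ind _) k hk1 (6 * k) (by omega) S hSsucc hpos
    have hSb : ∀ l, ind (S l) b' = ind (S l) (bb p x) := by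
      intro l
      simp only [b']
      rw [ind_ind, Set.inter_eq_left.2 (hSμ l)]
    simp only [hSb] at hreg
    have hflat := sum_flat (fun j i => rho (ind (S' j i) (bb p x))) k
    -- estimate of the interior parts
    have hint : ∀ j ∈ range k, 2⁻¹ * pr (f j) (ind (I j) x) ≤
        ∑ i ∈ range 5, rho (ind (S' j i) (bb p x)) := by
      intro j _
      by_cases hlt : M j < M (j+1)
      · calc 2⁻¹ * pr (f j) (ind (I j) x)
            ≤ 2⁻¹ * (2 * ∑ i ∈ range 5, rho (ind (A j i) (bb p (ind (I j) x)))) := by
              gcongr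
              exact hA2 j
          _ = ∑ i ∈ range 5, rho (ind (A j i) (bb p (ind (I j) x))) := by
              rw [← mul_assoc, ENNReal.inv_mul_cancel (by norm_num) (by norm_num), one_mul]
          _ ≤ ∑ i ∈ range 5, rho (ind (S' j i) (bb p x)) := by
              refine Finset.sum_le_sum fun i hi => rho_mono ?_
              have hi5 := mem_range.1 hi
              have e1 : S' j i = A j i ∩ Q j := by
                simp only [S', hlt, hi5, if_true]
              rw [e1, ← ind_ind]
              apply ind_mono
              intro n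
              refine bb_le fun m hm => ?_
              by_cases hmQ : n ∈ Q j
              · rw [ind_apply_mem hmQ, ← hm, bb_apply hp]
                exact rho_mono (ind_mono (ind_le _ _))
              · have hem : blk p m ∩ I j = ∅ := by
                  ext a
                  simp only [Set.mem_inter_iff, Set.mem_empty_iff_false, iff_false, not_and]
                  intro ha haI
                  apply hmQ
                  rw [← hm]
                  refine ⟨?_, ?_⟩
                  · by_contra hc
                    have h3 : m < M j := by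
                      by_contra hc2
                      exact hc (hp.monotone (not_lt.1 hc2))
                    have h4 : p (m+1) ≤ p (M j) := hp.monotone h3
                    have h5 := ha.2
                    have h6 := haI.1
                    omega
                  · by_contra hc
                    have h4 := ha.1
                    have h5 := haI.2
                    omega
                rw [ind_ind, hem, ind_empty, rho_zero]
                exact bot_le
      · have hem : I j = ∅ := by
          simp only [I]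
          apply Set.Ico_eq_empty
          have h3 : p (M (j+1) - 1) ≤ p (M j) := hp.monotone (by omega)
          omega
        rw [hem, ind_empty, pr_zero, mul_zero]
        exact bot_le
    have hbd : ∀ j ∈ range k, pr F (ind (D j) x) ≤ rho (ind (S' j 5) (bb p x)) := by
      intro j _
      refine (hKF.pr_le _).trans ?_
      by_cases hlt : M j < M (j+1)
      · have e1 : D j = blk p (M (j+1) - 1) := by simp only [D, hlt, if_true]
        have e2 : S' j 5 = {p (M (j+1) - 1)} := by simp [S', hlt]
        rw [e1, e2, ← bb_apply hp]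
        refine le_trans ?_ (le_rho _ (p (M (j+1) - 1)))
        rw [ind_apply_mem (Set.mem_singleton _)]
      · have e1 : D j = ∅ := by simp only [D, hlt, if_false]
        rw [e1, ind_empty, rho_zero]
        exact bot_le
    have hG : pr F yD + 2⁻¹ * ∑ j ∈ range k, pr (f j) (ind (I j) x) ≤
        2 * ∑ j ∈ range 4, rho (ind (grp k j) b') := by
      refine le_trans ?_ hreg
      have e1 : pr F yD = ∑ j ∈ range k, pr F (ind (D j) x) := pr_sum F _ _
      rw [e1, mul_sum, ← sum_add_distrib]
      refine le_trans ?_ (le_of_eq hflat.symm)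
      refine Finset.sum_le_sum fun j hj => ?_
      rw [Finset.sum_range_succ _ 5, add_comm]
      exact add_le_add (hint j hj) (hbd j hj)
    have hFF : pr F yF ≤ rho (ind (if 1 ≤ μ then {p (μ - 1)} else ∅) (bb p x)) := by
      refine (hKF.pr_le _).trans ?_
      by_cases hμ : 1 ≤ μ
      · simp only [yF, hμ, if_true]
        rw [← bb_apply hp]
        refine le_trans ?_ (le_rho _ (p (μ - 1)))
        rw [ind_apply_mem (Set.mem_singleton _)]
      · simp only [yF, hμ, if_false]
        rw [rho_zero]; exact bot_le
    let B : ℕ → Set ℕ := fun i =>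
      if i = 0 then (if 1 ≤ μ then {p (μ - 1)} else ∅) else grp k (i - 1) ∩ Set.Ici (p μ)
    refine ⟨B, ?_, ?_⟩
    · intro i j hij hj5 a ha b hb
      have hj0 : j ≠ 0 := by omega
      have hbB : b ∈ grp k (j - 1) ∩ Set.Ici (p μ) := by
        simpa only [B, hj0, if_false] using hb
      by_cases hi0 : i = 0
      · simp only [B, hi0, if_true] at ha
        split_ifs at ha with hμ
        · rw [Set.mem_singleton_iff] at ha
          have h3 : p (μ - 1) < p μ := hp (by omega)
          have h4 : p μ ≤ b := hbB.2
          omega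
        · exact absurd ha (Set.notMem_empty a)
      · have haB : a ∈ grp k (i - 1) ∩ Set.Ici (p μ) := by
          simpa only [B, hi0, if_false] using ha
        have h5 := haB.1
        have h6 := hbB.1
        have hi : i = 1 ∨ i = 2 ∨ i = 3 := by omega
        have hj : j = 2 ∨ j = 3 ∨ j = 4 := by omega
        rcases hi with rfl | rfl | rfl <;> rcases hj with rfl | rfl | rfl <;>
          simp only [grp, Set.mem_Ico, Set.mem_Ici, Nat.add_one_sub_one,
            show (1:ℕ) - 1 = 0 from rfl, show (2:ℕ) - 1 = 1 from rfl,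
            show (3:ℕ) - 1 = 2 from rfl, show (4:ℕ) - 1 = 3 from rfl] at h5 h6 <;> omega
    · have hBsum : rho (ind (if 1 ≤ μ then {p (μ - 1)} else ∅) (bb p x)) +
          ∑ j ∈ range 4, rho (ind (grp k j) b') = ∑ i ∈ range 5, rho (ind (B i) (bb p x)) := by
        rw [Finset.sum_range_succ' _ 4, add_comm]
        congr 1
        refine Finset.sum_congr rfl fun j _ => ?_
        simp only [b', B, ind_ind, Nat.add_one_ne_zero, if_false, Nat.add_one_sub_one]
      rw [← hBsum, mul_add]
      calc pr F x ≤ pr F yF + pr F yD + 2⁻¹ * ∑ j ∈ range k, pr (f j) (ind (I j) x) := hsum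
        _ = pr F yF + (pr F yD + 2⁻¹ * ∑ j ∈ range k, pr (f j) (ind (I j) x)) := by
            rw [add_assoc]
        _ ≤ rho (ind (if 1 ≤ μ then {p (μ - 1)} else ∅) (bb p x)) +
            2 * ∑ j ∈ range 4, rho (ind (grp k j) b') := add_le_add hFF hG
        _ ≤ _ := by
            refine add_le_add ?_ le_rfl
            conv_lhs => rw [← one_mul (rho (ind (if 1 ≤ μ then {p (μ - 1)} else ∅) (bb p x)))]
            gcongr
            norm_num

/-- The upper estimate for blocks. -/
theorem block_upper {p : ℕ → ℕ} (hp : StrictMono p) (x : ℕ → ℝ≥0∞) (hx : Bdd x)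
    (h0 : ∀ n, n ≤ p 0 → x n = 0) : rho x ≤ 10 * rho (bb p x) := by
  refine rho_le_of_K x _ fun f hf => ?_
  obtain ⟨A, _, hA⟩ := upper_aux hp hf x hx h0
  refine hA.trans ?_
  calc 2 * ∑ i ∈ range 5, rho (ind (A i) (bb p x)) ≤ 2 * ∑ i ∈ range 5, rho (bb p x) := by
        gcongr with i hi
        exact rho_mono (ind_le _ _)
    _ = 10 * rho (bb p x) := by
        rw [Finset.sum_const, Finset.card_range, nsmul_eq_mul]
        push_cast
        rw [← mul_assoc]
        norm_num

/-- The lower estimate for blocks. -/
theorem block_lower {p : ℕ → ℕ} (hp : StrictMono p) :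
    ∀ (x : ℕ → ℝ≥0∞), Bdd x → rho (bb p x) ≤ rho x := by
  intro x hx
  refine iSup_le fun m => ?_
  revert x
  induction m with
  | zero =>
    intro x hx
    simp only [rhoN]
    exact iSup_le fun n => bb_le fun m _ => rho_mono (ind_le _ _)
  | succ m ih =>
    intro x hx
    simp only [rhoN]
    refine max_le (ih x hx) (iSup_le fun q => ?_)
    obtain ⟨⟨k, t⟩, ht, hk⟩ := q
    simp only at ht hk ⊢
    let U : ℕ → Set ℕ := fun i => {a | ∃ m, p m ∈ Set.Ico (t i) (t (i+1)) ∧ a ∈ blk p m}
    have hU : ∀ i, ind (Set.Ico (t i) (t (i+1))) (bb p x) ≤ bb p (ind (U i) x) := by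
      intro i n
      by_cases hn : n ∈ Set.Ico (t i) (t (i+1))
      · rw [ind_apply_mem hn]
        refine bb_le fun m hm => ?_
        rw [← hm, bb_apply hp, ind_ind, Set.inter_eq_left.2]
        intro a ha
        exact ⟨m, by rw [hm]; exact hn, ha⟩
      · rw [ind_apply_notMem hn]; exact bot_le
    have hsucc : Succ k U := by
      intro i j hij _ a ha b hb
      obtain ⟨m₁, h1, h2⟩ := ha
      obtain ⟨m₂, h3, h4⟩ := hb
      have h5 : p m₁ < p m₂ := lt_of_lt_of_le h1.2 ((ht (show i + 1 ≤ j by omega)).trans h3.1)
      have h6 : m₁ < m₂ := hp.lt_iff_lt.1 h5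
      have h7 : p (m₁ + 1) ≤ p m₂ := hp.monotone h6
      have h8 := h2.2
      have h9 := h4.1
      omega
    have hfam := sum_fam_le x hx k U hsucc (by
      intro i _ a ha
      obtain ⟨m₁, h1, h2⟩ := ha
      have h3 : t 0 ≤ t i := ht (Nat.zero_le i)
      have h4 := h1.1
      have h5 := h2.1
      omega)
    calc 2⁻¹ * ∑ i ∈ range k, rhoN m (ind (Set.Ico (t i) (t (i+1))) (bb p x))
        ≤ 2⁻¹ * ∑ i ∈ range k, rho (ind (U i) x) := by
          gcongr with i hi
          exact (rhoN_mono m (hU i)).trans (ih _ (hx.ind _))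
      _ ≤ 2⁻¹ * (2 * rho x) := by gcongr
      _ = rho x := by
          rw [← mul_assoc, ENNReal.inv_mul_cancel (by norm_num) (by norm_num), one_mul]

end Pool.Agent.H825R3.Tsi
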