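import Mathlib

/-!
Definition of Tsirelson space (the Figiel-Johnson space) and of the factorization property.
The index `k : ℕ` stands for the position `k + 1 ∈ {1, 2, ...}`: `e k` is the `(k+1)`-st unit
vector.
-/
set_option autoImplicit false

namespace Pool.Agent.H825R3.Tsi

/-- The restriction `Ex` of a finitely supported real sequence `x` to a finite set `E`. -/
noncomputable def restr (E : Finset ℕ) (x : ℕ →₀ ℝ) : ℕ →₀ ℝ := x.filter (· ∈ E)

/-- The vector `∑ x_k e_k`. -/
noncomputable def comb {T : Type*} [AddCommGroup T] [Module ℝ T] (e : ℕ → T) (x : ℕ →₀ ℝ) : T :=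
  x.sum fun k a => a • e k

/-- Admissible families: nonempty finite sets `n ≤ E_1 < E_2 < ... < E_n` of positions. Since the
index `k` stands for the position `k + 1`, the condition `n ≤ E_i` reads `n ≤ k + 1` for all
`k ∈ E_i`. -/
def Admissible (n : ℕ) (E : Fin n → Finset ℕ) : Prop :=
  (∀ i, (E i).Nonempty) ∧ (∀ i, ∀ k ∈ E i, n ≤ k + 1) ∧
    ∀ i j, i < j → ∀ a ∈ E i, ∀ b ∈ E j, a < b

/-- `T` with the sequence `e` is (a realisation of) Tsirelson space with its unit vector basis:
`T` is a Banach space, the linear span of the `e_k` is dense, and on finitely supported sequences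
the norm satisfies
`‖x‖ = max {‖x‖_∞, (1/2) sup ∑_{i ≤ n} ‖E_i x‖}`, the supremum being over `n ≥ 1` and finite sets
`n ≤ E_1 < ... < E_n`. -/
structure IsTsirelson (T : Type) [NormedAddCommGroup T] [NormedSpace ℝ T] (e : ℕ → T) :
    Prop where
  complete : CompleteSpace T
  dense_span : Dense (Submodule.span ℝ (Set.range e) : Set T)
  norm_eq : ∀ x : ℕ →₀ ℝ,
    IsLUB ({r : ℝ | ∃ k, r = |x k|} ∪
      {r : ℝ | ∃ (n : ℕ) (E : Fin n → Finset ℕ), 1 ≤ n ∧ Admissible n E ∧
        r = (1 / 2) * ∑ i, ‖comb e (restr (E i) x)‖}) ‖comb e x‖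

/-- `es` is the sequence of biorthogonal functionals of `e`. -/
def Biorthogonal {T : Type} [NormedAddCommGroup T] [NormedSpace ℝ T] (e : ℕ → T)
    (es : ℕ → StrongDual ℝ T) : Prop :=
  ∀ j k, es j (e k) = if j = k then 1 else 0

/-- The factorization property of `e` (with biorthogonal functionals `es`): the identity factors
through every bounded linear operator with large diagonal. -/
def FactorizationProperty {T : Type} [NormedAddCommGroup T] [NormedSpace ℝ T] (e : ℕ → T)
    (es : ℕ → StrongDual ℝ T) : Prop :=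
  ∀ A : T →L[ℝ] T, (∃ δ : ℝ, 0 < δ ∧ ∀ k, δ ≤ |es k (A (e k))|) →
    ∃ R S : T →L[ℝ] T, S ∘L A ∘L R = ContinuousLinearMap.id ℝ T

end Pool.Agent.H825R3.Tsi
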