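import Mathlib
import Pool.Agent.H825R3.Tsi.Blocks

set_option autoImplicit false
open scoped ENNReal
open Finset

namespace Pool.Agent.H825R3.Tsi

/-- transport of a sequence along an index map -/
noncomputable def push (θ : ℕ → ℕ) (x : ℕ → ℝ≥0∞) : ℕ → ℝ≥0∞ :=
  fun n => ⨆ i, ⨆ (_ : θ i = n), x i

lemma push_apply {θ : ℕ → ℕ} (hθ : Function.Injective θ) (x : ℕ → ℝ≥0∞) (i : ℕ) :
    push θ x (θ i) = x i := by
  unfold push
  refine le_antisymm (iSup_le fun j => iSup_le fun h => ?_) ?_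
  · rw [hθ h]
  · exact le_iSup_of_le i (le_iSup_of_le rfl le_rfl)

lemma push_le {θ : ℕ → ℕ} {x : ℕ → ℝ≥0∞} {n : ℕ} {B : ℝ≥0∞}
    (h : ∀ i, θ i = n → x i ≤ B) : push θ x n ≤ B :=
  iSup_le fun m => iSup_le fun hm => h m hm

lemma push_mono (θ : ℕ → ℕ) {x y : ℕ → ℝ≥0∞} (h : x ≤ y) : push θ x ≤ push θ y :=
  fun _ => iSup_mono fun i => iSup_mono fun _ => h i

lemma push_bdd {θ : ℕ → ℕ} (hθ : StrictMono θ) {x : ℕ → ℝ≥0∞} (hx : Bdd x) :
    Bdd (push θ x) := by
  obtain ⟨M, hM⟩ := hx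
  refine ⟨θ M, fun n hn => le_antisymm (push_le fun i hi => ?_) bot_le⟩
  rw [← hi] at hn
  exact (hM i (hθ.le_iff_le.1 hn)).le

lemma tsum_push_le {θ : ℕ → ℕ} (hθ : Function.Injective θ) (x : ℕ → ℝ≥0∞) (A B : Set ℕ)
    (h : ∀ i, x i ≠ 0 → θ i ∈ A → i ∈ B) :
    ∑' n, ind A (push θ x) n ≤ ∑' i, ind B x i := by
  have hsupp : Function.support (ind A (push θ x)) ⊆ Set.range θ := by
    intro n hn
    by_contra hc
    apply hn
    refine le_antisymm ((ind_le _ _ n).trans (push_le fun i hi => ?_)) bot_le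
    exact absurd ⟨i, hi⟩ hc
  rw [← hθ.tsum_eq hsupp]
  refine ENNReal.tsum_le_tsum fun i => ?_
  by_cases hi : θ i ∈ A
  · rw [ind_apply_mem hi, push_apply hθ]
    by_cases hx : x i = 0
    · rw [hx]; exact bot_le
    · rw [ind_apply_mem (h i hx hi)]
  · rw [ind_apply_notMem hi]; exact bot_le

/-- moving to the right increases the norm -/
theorem le_push {θ : ℕ → ℕ} (hθ : StrictMono θ) :
    ∀ x : ℕ → ℝ≥0∞, Bdd x → rho x ≤ rho (push θ x) := by
  intro x hx
  refine iSup_le fun m => ?_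
  revert x
  induction m with
  | zero =>
    intro x hx
    simp only [rhoN]
    refine iSup_le fun n => ?_
    rw [← push_apply hθ.injective x n]
    exact le_rho _ _
  | succ m ih =>
    intro x hx
    simp only [rhoN]
    refine max_le (ih x hx) (iSup_le fun q => ?_)
    obtain ⟨⟨k, t⟩, ht, hk⟩ := q
    simp only at ht hk ⊢
    let U : ℕ → Set ℕ := fun i => θ '' (Set.Ico (t i) (t (i+1)))
    have hU : ∀ i, push θ (ind (Set.Ico (t i) (t (i+1))) x) ≤ ind (U i) (push θ x) := by
      intro i n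
      refine push_le fun j hj => ?_
      by_cases hjm : j ∈ Set.Ico (t i) (t (i+1))
      · have : n ∈ U i := ⟨j, hjm, hj⟩
        rw [ind_apply_mem hjm, ind_apply_mem this, ← hj, push_apply hθ.injective]
      · rw [ind_apply_notMem hjm]; exact bot_le
    have hsucc : Succ k U := by
      intro i j hij _ a ha b hb
      obtain ⟨a', h1, rfl⟩ := ha
      obtain ⟨b', h3, rfl⟩ := hb
      exact hθ (lt_of_lt_of_le h1.2 ((ht (show i + 1 ≤ j by omega)).trans h3.1))
    have hfam := sum_fam_le (push θ x) (push_bdd hθ hx) k U hsucc (by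
      intro i _ a ha
      obtain ⟨a', h1, rfl⟩ := ha
      have h3 : t 0 ≤ t i := ht (Nat.zero_le i)
      have h4 := h1.1
      have h5 : a' ≤ θ a' := hθ.le_apply
      omega)
    calc 2⁻¹ * ∑ i ∈ range k, rhoN m (ind (Set.Ico (t i) (t (i+1))) x)
        ≤ 2⁻¹ * ∑ i ∈ range k, rho (ind (U i) (push θ x)) := by
          gcongr with i hi
          exact (ih _ (hx.ind _)).trans (rho_mono (hU i))
      _ ≤ 2⁻¹ * (2 * rho (push θ x)) := by gcongr
      _ = rho (push θ x) := by
          rw [← mul_assoc, ENNReal.inv_mul_cancel (by norm_num) (by norm_num), one_mul]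

lemma blk_disj {p : ℕ → ℕ} (hp : StrictMono p) {m m' n : ℕ} (h : n ∈ blk p m)
    (h' : n ∈ blk p m') : m = m' := by
  rcases lt_trichotomy m m' with hl | hl | hl
  · have h1 : p (m + 1) ≤ p m' := hp.monotone hl
    have h2 := h.2
    have h3 := h'.1
    omega
  · exact hl
  · have h1 : p (m' + 1) ≤ p m := hp.monotone hl
    have h2 := h'.2
    have h3 := h.1
    omega

theorem growth_aux {p : ℕ → ℕ} (hp : StrictMono p) {c : ℝ≥0∞} (hL : ∀ m, L1 c (blk p m))
    {θ : ℕ → ℕ} (hθ : StrictMono θ) (hθp : ∀ m i, i ≤ p (m+1) → θ i ≤ p (m+2))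
    (x : ℕ → ℝ≥0∞) (hx : Bdd x) (h0 : ∀ n, n ≤ p 0 → x n = 0) :
    rho (push θ x) ≤ 110 * c * rho x := by
  set y := push θ x with hy
  let Y1 : Set ℕ := {n | ∃ m i, θ i = n ∧ i ∈ blk p m ∧ n ∈ blk p m}
  let Y2 : Set ℕ := {n | ∃ m i, θ i = n ∧ i ∈ blk p m ∧ n ∈ blk p (m+1)}
  have hyB : Bdd y := push_bdd hθ hx
  have hsplit : y ≤ ind Y1 y + ind Y2 y := by
    intro n
    refine push_le fun i hi => ?_
    by_cases hi0 : x i = 0
    · rw [hi0]; exact bot_le
    have hip : p 0 < i := by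
      by_contra hc
      exact hi0 (h0 i (not_lt.1 hc))
    obtain ⟨h1, h2⟩ := mem_blk_idx hp hip
    set m := idx p i - 1 with hm
    have hle : i ≤ θ i := hθ.le_apply
    have hup : θ i ≤ p (m + 2) := hθp m i (by have := h2.2; omega)
    have hyn : y n = x i := by rw [← hi]; exact push_apply hθ.injective x i
    simp only [Pi.add_apply]
    by_cases hc : θ i ≤ p (m + 1)
    · have : n ∈ Y1 := ⟨m, i, hi, h2, by
        rw [← hi]
        exact ⟨by have := h2.1; omega, by omega⟩⟩
      rw [ind_apply_mem this, hyn]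
      exact le_self_add
    · have : n ∈ Y2 := ⟨m, i, hi, h2, by
        rw [← hi]
        exact ⟨by omega, show θ i < p (m + 2) + 1 by omega⟩⟩
      rw [ind_apply_mem this, hyn]
      exact le_add_self
  have hb1 : bb p (ind Y1 y) ≤ c • bb p x := by
    intro n
    refine bb_le fun m hm => ?_
    rw [Pi.smul_apply, smul_eq_mul, ← hm, bb_apply hp, ind_ind]
    refine (rho_le_tsum _).trans ((tsum_push_le hθ.injective x _ (blk p m) ?_).trans (hL m x))
    intro i _ hi
    obtain ⟨h1, m', i', h2, h3, h4⟩ := hi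
    have := hθ.injective h2
    rw [this] at h3
    rwa [blk_disj hp h1 h4]
  let z : ℕ → ℝ≥0∞ := fun n => ⨆ m, ⨆ (_ : p (m+1) = n), bb p x (p m)
  have hz : ∀ m, bb p x (p m) ≤ z (p (m+1)) := fun m =>
    le_iSup_of_le m (le_iSup_of_le rfl le_rfl)
  have hz' : ∀ n B, (∀ m, p (m+1) = n → bb p x (p m) ≤ B) → z n ≤ B := fun n B h =>
    iSup_le fun m => iSup_le fun hm => h m hm
  have hb2 : bb p (ind Y2 y) ≤ c • z := by
    intro n
    refine bb_le fun m hm => ?_
    rw [Pi.smul_apply, smul_eq_mul, ← hm, ind_ind]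
    cases m with
    | zero =>
      have : blk p 0 ∩ Y2 = ∅ := by
        ext a
        simp only [Set.mem_inter_iff, Set.mem_empty_iff_false, iff_false, not_and]
        intro ha haY
        obtain ⟨m', i, _, _, h4⟩ := haY
        have := blk_disj hp ha h4
        omega
      rw [this, ind_empty, rho_zero]
      exact bot_le
    | succ m =>
      refine (rho_le_tsum _).trans ((tsum_push_le hθ.injective x _ (blk p m) ?_).trans
        ((hL m x).trans ?_))
      · intro i _ hi
        obtain ⟨h1, m', i', h2, h3, h4⟩ := hi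
        have h5 := hθ.injective h2
        rw [h5] at h3
        have h6 := blk_disj hp h1 h4
        have h7 : m = m' := by omega
        rwa [h7]
      · gcongr
        rw [← bb_apply hp]
        exact hz m
  have hzB : Bdd z := by
    obtain ⟨M, hM⟩ := bb_bdd (p := p) hx
    refine ⟨p (M+1), fun n hn => le_antisymm (hz' n 0 fun m hm => ?_) bot_le⟩
    rw [← hm] at hn
    have h1 : M ≤ m := by
      have := hp.le_iff_le.1 hn
      omega
    have h2 : M ≤ p m := h1.trans hp.le_apply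
    exact (hM _ h2).le
  have hz0 : ∀ n, n ≤ p 0 → z n = 0 := fun n hn =>
    le_antisymm (hz' n 0 fun m hm => by
      have := hp (Nat.succ_pos m)
      rw [← hm] at hn
      exact absurd this (not_lt.2 hn)) bot_le
  have hbz : bb p z ≤ bb p x := by
    intro n
    refine bb_le fun m hm => ?_
    rw [← hm]
    refine (rho_le_tsum _).trans ?_
    rw [tsum_eq_single (p (m+1))]
    · refine (ind_le _ _ _).trans (hz' _ _ fun m' hm' => ?_)
      have : m' = m := by
        have := hp.injective hm'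
        omega
      rw [this]
    · intro b hb
      by_cases hbm : b ∈ blk p m
      · rw [ind_apply_mem hbm]
        refine le_antisymm (hz' _ _ fun m' hm' => ?_) bot_le
        exfalso
        apply hb
        rw [← hm']
        congr 1
        have h1 : p m < p (m' + 1) := by rw [hm']; exact hbm.1
        have h2 : p (m' + 1) ≤ p (m + 1) := by rw [hm']; have := hbm.2; omega
        have h3 := hp.lt_iff_lt.1 h1
        have h4 := hp.le_iff_le.1 h2
        omega
      · exact ind_apply_notMem hbm z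
  have hzr : rho z ≤ 10 * rho x :=
    calc rho z ≤ 10 * rho (bb p z) := block_upper hp z hzB hz0
      _ ≤ 10 * rho (bb p x) := by gcongr; exact rho_mono hbz
      _ ≤ 10 * rho x := by gcongr; exact block_lower hp x hx
  have h1 : rho (ind Y1 y) ≤ 10 * (c * rho x) :=
    calc rho (ind Y1 y) ≤ 10 * rho (bb p (ind Y1 y)) := block_upper hp _ (hyB.ind _) (by
          intro n hn
          refine ind_apply_notMem ?_ y
          rintro ⟨m, i, _, _, h4⟩
          have := h4.1
          have h5 : p 0 ≤ p m := hp.monotone (Nat.zero_le m)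
          omega)
      _ ≤ 10 * rho (c • bb p x) := by gcongr; exact rho_mono hb1
      _ = 10 * (c * rho (bb p x)) := by rw [rho_smul]
      _ ≤ 10 * (c * rho x) := by gcongr; exact block_lower hp x hx
  have h2 : rho (ind Y2 y) ≤ 10 * (c * (10 * rho x)) :=
    calc rho (ind Y2 y) ≤ 10 * rho (bb p (ind Y2 y)) := block_upper hp _ (hyB.ind _) (by
          intro n hn
          refine ind_apply_notMem ?_ y
          rintro ⟨m, i, _, _, h4⟩
          have := h4.1
          have h5 : p 0 ≤ p (m+1) := hp.monotone (Nat.zero_le _)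
          omega)
      _ ≤ 10 * rho (c • z) := by gcongr; exact rho_mono hb2
      _ = 10 * (c * rho z) := by rw [rho_smul]
      _ ≤ 10 * (c * (10 * rho x)) := by gcongr
  calc rho y ≤ rho (ind Y1 y + ind Y2 y) := rho_mono hsplit
    _ ≤ rho (ind Y1 y) + rho (ind Y2 y) := rho_add _ _
    _ ≤ 10 * (c * rho x) + 10 * (c * (10 * rho x)) := add_le_add h1 h2
    _ = 110 * c * rho x := by ring

theorem growth {p : ℕ → ℕ} (hp : StrictMono p) {c : ℝ≥0∞} (hL : ∀ m, L1 c (blk p m))
    {θ : ℕ → ℕ} (hθ : StrictMono θ) (hθp : ∀ m i, i ≤ p (m+1) → θ i ≤ p (m+2))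
    (x : ℕ → ℝ≥0∞) (hx : Bdd x) :
    rho (push θ x) ≤ (110 * c + (p 0 + 1 : ℕ)) * rho x := by
  have h1 : push θ x ≤ push θ (ind (Set.Ioi (p 0)) x) + push θ (ind (Set.Iic (p 0)) x) := by
    intro n
    refine push_le fun i hi => ?_
    simp only [Pi.add_apply]
    rw [← hi, push_apply hθ.injective, push_apply hθ.injective]
    by_cases h : i ≤ p 0
    · rw [ind_apply_mem (show i ∈ Set.Iic (p 0) from h)]
      exact le_add_self
    · rw [ind_apply_mem (show i ∈ Set.Ioi (p 0) from not_le.1 h)]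
      exact le_self_add
  have h2 : rho (push θ (ind (Set.Ioi (p 0)) x)) ≤ 110 * c * rho x := by
    refine (growth_aux hp hL hθ hθp _ (hx.ind _) fun n hn =>
      ind_apply_notMem (by simpa using hn) x).trans ?_
    gcongr
    exact rho_mono (ind_le _ _)
  have h3 : rho (push θ (ind (Set.Iic (p 0)) x)) ≤ ((p 0 + 1 : ℕ) : ℝ≥0∞) * rho x := by
    refine (rho_le_tsum _).trans ?_
    have := tsum_push_le hθ.injective (ind (Set.Iic (p 0)) x) Set.univ Set.univ
      (fun _ _ _ => trivial)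
    simp only [ind, Set.indicator_univ] at this
    refine this.trans ?_
    rw [tsum_eq_sum (s := range (p 0 + 1))]
    · calc ∑ b ∈ range (p 0 + 1), (Set.Iic (p 0)).indicator x b
          ≤ ∑ b ∈ range (p 0 + 1), rho x := by
            refine Finset.sum_le_sum fun b _ => ?_
            exact (Set.indicator_le_self _ _ b).trans (le_rho x b)
        _ = _ := by rw [Finset.sum_const, card_range, nsmul_eq_mul]
    · intro b hb
      apply Set.indicator_of_notMem
      simp only [Set.mem_Iic, not_le]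
      simpa [Nat.lt_succ_iff] using hb
  calc rho (push θ x) ≤ rho (push θ (ind (Set.Ioi (p 0)) x) + push θ (ind (Set.Iic (p 0)) x)) :=
        rho_mono h1
    _ ≤ _ := rho_add _ _
    _ ≤ 110 * c * rho x + ((p 0 + 1 : ℕ) : ℝ≥0∞) * rho x := add_le_add h2 h3
    _ = _ := by rw [add_mul]

/-! ### The growth functions -/

/-- the first growth functions -/
def h1 (a : ℕ) : ℕ := 2 * a + 1
def h2 (a : ℕ) : ℕ := h1^[a+1] a
def h3 (a : ℕ) : ℕ := h2^[a+1] a
def h4 (a : ℕ) : ℕ := h3^[a+1] a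

lemma iter_le {h : ℕ → ℕ} (hle : ∀ a, a < h a) (a n : ℕ) : a + n ≤ h^[n] a := by
  induction n with
  | zero => simp
  | succ n ih =>
    rw [Function.iterate_succ_apply']
    have := hle (h^[n] a)
    omega

lemma lt_h1 (a : ℕ) : a < h1 a := by unfold h1; omega
lemma lt_h2 (a : ℕ) : a < h2 a := by
  have := iter_le lt_h1 a (a+1)
  unfold h2; omega
lemma lt_h3 (a : ℕ) : a < h3 a := by
  have := iter_le lt_h2 a (a+1)
  unfold h3; omega
lemma lt_h4 (a : ℕ) : a < h4 a := by
  have := iter_le lt_h3 a (a+1)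
  unfold h4; omega

lemma L1_h2 (a : ℕ) : L1 4 (Set.Ico a (h2 a)) := by
  have := L1_next h1 (fun a => (lt_h1 a).le) (fun a => L1_double a) a
  have e : (2 : ℝ≥0∞) * 2 = 4 := by norm_num
  rwa [e] at this

lemma L1_h3 (a : ℕ) : L1 8 (Set.Ico a (h3 a)) := by
  have := L1_next h2 (fun a => (lt_h2 a).le) L1_h2 a
  have e : (2 : ℝ≥0∞) * 4 = 8 := by norm_num
  rwa [e] at this

lemma L1_h4 (a : ℕ) : L1 16 (Set.Ico a (h4 a)) := by
  have := L1_next h3 (fun a => (lt_h3 a).le) L1_h3 a
  have e : (2 : ℝ≥0∞) * 8 = 16 := by norm_num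
  rwa [e] at this

lemma h1_iter (n a : ℕ) : h1^[n] a + 1 = 2 ^ n * (a + 1) := by
  induction n with
  | zero => simp
  | succ n ih =>
    rw [Function.iterate_succ_apply', h1, pow_succ]
    have : 2 * h1^[n] a + 1 + 1 = 2 * (h1^[n] a + 1) := by ring
    rw [this, ih]; ring

lemma h2_eq (a : ℕ) : h2 a + 1 = 2 ^ (a + 1) * (a + 1) := h1_iter (a+1) a

lemma h1_mono : Monotone h1 := fun a b h => by unfold h1; omega

lemma iter_mono {h : ℕ → ℕ} (hm : Monotone h) (hle : ∀ a, a < h a) {a b n m : ℕ} (hab : a ≤ b)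
    (hnm : n ≤ m) : h^[n] a ≤ h^[m] b := by
  refine (hm.iterate n hab).trans ?_
  obtain ⟨k, rfl⟩ := Nat.exists_eq_add_of_le hnm
  rw [add_comm n k, Function.iterate_add_apply]
  have := iter_le hle (h^[n] b) k
  omega

lemma h2_mono : Monotone h2 := fun a b h => iter_mono h1_mono lt_h1 h (by omega)
lemma h3_mono : Monotone h3 := fun a b h => iter_mono h2_mono lt_h2 h (by omega)
lemma h4_mono : Monotone h4 := fun a b h => iter_mono h3_mono lt_h3 h (by omega)

/-- `h3` is at least doubly exponential. -/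
lemma h3_ge (a : ℕ) (ha : 1 ≤ a) : 2 ^ ((a + 1) * 2 ^ (a + 1)) ≤ h3 a := by
  have h : h2^[2] a ≤ h3 a := iter_mono h2_mono lt_h2 le_rfl (by omega)
  have e1 : h2^[2] a = h2 (h2 a) := rfl
  have e2 := h2_eq a
  have e3 := h2_eq (h2 a)
  rw [e2] at e3
  have e4 : (2:ℕ) ^ (2 ^ (a + 1) * (a + 1)) * 2 ≤ 2 ^ (2 ^ (a + 1) * (a + 1)) * (2 ^ (a + 1) * (a + 1)) := by
    apply Nat.mul_le_mul_left
    have : 2 ^ 1 ≤ 2 ^ (a + 1) := Nat.pow_le_pow_right (by norm_num) (by omega)
    nlinarith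
  have e5 : 1 ≤ (2:ℕ) ^ (2 ^ (a + 1) * (a + 1)) := Nat.one_le_two_pow
  rw [mul_comm (a+1)]
  omega

/-- the growth theorem in the form in which it is used -/
theorem growth' {θ : ℕ → ℕ} (hθ : StrictMono θ) {a₀ : ℕ} (ha₀ : 1 ≤ a₀)
    (hg : ∀ i, θ i < h3^[i+1] a₀) :
    ∃ C : ℝ≥0∞, C ≠ ∞ ∧ ∀ x, Bdd x → rho (push θ x) ≤ C * rho x := by
  let q : ℕ → ℕ := fun m => h4^[m] a₀
  have hq1 : ∀ m, 1 ≤ q m := fun m => by
    have := iter_le lt_h4 a₀ m
    show 1 ≤ h4^[m] a₀
    omega
  have hqa : ∀ m, a₀ ≤ q m := fun m => by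
    have := iter_le lt_h4 a₀ m
    show a₀ ≤ h4^[m] a₀
    omega
  have hqs : ∀ m, q (m+1) = h4 (q m) := fun m => Function.iterate_succ_apply' h4 m a₀
  let p : ℕ → ℕ := fun m => q m - 1
  have hp : StrictMono p := by
    refine strictMono_nat_of_lt_succ fun m => ?_
    show q m - 1 < q (m+1) - 1
    rw [hqs]
    have := lt_h4 (q m)
    have := hq1 m
    omega
  refine ⟨110 * 16 + (p 0 + 1 : ℕ), ?_, fun x hx => growth hp (c := 16) ?_ hθ ?_ x hx⟩
  · exact ENNReal.add_ne_top.2 ⟨by norm_num [ENNReal.mul_eq_top], ENNReal.natCast_ne_top _⟩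
  · intro m
    have : blk p m = Set.Ico (q m) (h4 (q m)) := by
      unfold blk
      rw [← hqs]
      have h1 := hq1 m
      have h2 := hq1 (m+1)
      have e1 : p m + 1 = q m := by show q m - 1 + 1 = q m; omega
      have e2 : p (m+1) + 1 = q (m+1) := by show q (m+1) - 1 + 1 = q (m+1); omega
      rw [e1, e2]
    rw [this]
    exact L1_h4 _
  · intro m i hi
    have h1 := hg i
    have h2 : h3^[i+1] a₀ ≤ h3^[q (m+1) + 1] (q (m+1)) :=
      iter_mono h3_mono lt_h3 (hqa _) (by
        have : i ≤ q (m+1) - 1 := hi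
        omega)
    have h3' : h3^[q (m+1) + 1] (q (m+1)) = q (m+2) := (hqs (m+1)).symm
    show θ i ≤ q (m+2) - 1
    omega

end Pool.Agent.H825R3.Tsi
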