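import Mathlib
import Pool.Agent.H825R3.Tsi.Growth
import Pool.Agent.H825R3.Tsi.Defs

set_option autoImplicit false
open scoped ENNReal
open Finset

namespace Pool.Agent.H825R3.Tsi

/-- absolute values of a finitely supported sequence -/
noncomputable def Phi (x : ℕ →₀ ℝ) : ℕ → ℝ≥0∞ := fun n => ‖x n‖ₑ

lemma Phi_bdd (x : ℕ →₀ ℝ) : Bdd (Phi x) := by
  refine ⟨x.support.sup id + 1, fun n hn => ?_⟩
  unfold Phi
  by_cases h : n ∈ x.support
  · have : n ≤ x.support.sup id := Finset.le_sup (f := id) h
    omega
  · rw [Finsupp.notMem_support_iff.1 h]; simp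

lemma Phi_restr (E : Finset ℕ) (x : ℕ →₀ ℝ) : Phi (restr E x) = ind (↑E) (Phi x) := by
  funext n
  unfold Phi restr
  by_cases h : n ∈ E
  · rw [Finsupp.filter_apply_pos _ _ h, ind_apply_mem (by simpa using h)]
  · rw [Finsupp.filter_apply_neg _ _ h, ind_apply_notMem (by simpa using h)]; simp

lemma tsum_Phi (x : ℕ →₀ ℝ) : ∑' n, Phi x n = ∑ n ∈ x.support, ‖x n‖ₑ :=
  tsum_eq_sum fun n hn => by
    unfold Phi
    rw [Finsupp.notMem_support_iff.1 hn]; simp

lemma rho_Phi_ne_top (x : ℕ →₀ ℝ) : rho (Phi x) ≠ ∞ := by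
  refine ne_top_of_le_ne_top ?_ (rho_le_tsum _)
  rw [tsum_Phi]
  exact ENNReal.sum_ne_top.2 fun n _ => enorm_ne_top

lemma restr_empty (x : ℕ →₀ ℝ) : restr ∅ x = 0 := by
  ext n
  simp [restr]

variable {T : Type} [NormedAddCommGroup T] [NormedSpace ℝ T] {e : ℕ → T}

lemma comb_zero : comb e 0 = 0 := by simp [comb]

lemma comb_eq (x : ℕ →₀ ℝ) : comb e x = Finsupp.linearCombination ℝ e x := rfl

namespace IsTsirelson

variable (h : IsTsirelson T e)
include h

lemma coord_le (x : ℕ →₀ ℝ) (k : ℕ) : |x k| ≤ ‖comb e x‖ :=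
  (h.norm_eq x).1 (Or.inl ⟨k, rfl⟩)

lemma adm_le (x : ℕ →₀ ℝ) {n : ℕ} {E : Fin n → Finset ℕ} (hn : 1 ≤ n) (hE : Admissible n E) :
    ∑ i, ‖comb e (restr (E i) x)‖ ≤ 2 * ‖comb e x‖ := by
  have := (h.norm_eq x).1 (Or.inr ⟨n, E, hn, hE, rfl⟩)
  linarith

/-- admissible families with possibly empty members -/
lemma adm_le' (x : ℕ →₀ ℝ) (k : ℕ) (S : ℕ → Finset ℕ)
    (hpos : ∀ i < k, ∀ a ∈ S i, k ≤ a + 1)
    (hs : ∀ i j, i < j → j < k → ∀ a ∈ S i, ∀ b ∈ S j, a < b) :
    ∑ i ∈ range k, ‖comb e (restr (S i) x)‖ ≤ 2 * ‖comb e x‖ := by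
  classical
  let J : Finset ℕ := (range k).filter fun i => (S i).Nonempty
  have h1 : ∑ i ∈ range k, ‖comb e (restr (S i) x)‖ = ∑ i ∈ J, ‖comb e (restr (S i) x)‖ := by
    symm
    refine Finset.sum_subset (Finset.filter_subset _ _) fun i hi hiJ => ?_
    have : S i = ∅ := by
      by_contra hne
      exact hiJ (Finset.mem_filter.2 ⟨hi, Finset.nonempty_iff_ne_empty.2 hne⟩)
    rw [this, restr_empty, comb_zero, norm_zero]
  rw [h1]
  rcases Nat.eq_zero_or_pos J.card with h0 | h0
  · rw [Finset.card_eq_zero.1 h0, Finset.sum_empty]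
    positivity
  let g : Fin J.card ↪o ℕ := J.orderEmbOfFin rfl
  have hg : ∀ i, g i ∈ J := fun i => J.orderEmbOfFin_mem rfl i
  have h2 : ∑ i ∈ J, ‖comb e (restr (S i) x)‖ = ∑ i, ‖comb e (restr (S (g i)) x)‖ := by
    rw [← Finset.sum_image (s := Finset.univ) (g := g)
      (f := fun i => ‖comb e (restr (S i) x)‖) (fun a _ b _ hab => g.injective hab)]
    congr 1
    exact (J.image_orderEmbOfFin_univ rfl).symm
  rw [h2]
  have hcard : J.card ≤ k := (Finset.card_filter_le _ _).trans (by simp)
  refine h.adm_le x h0 ⟨fun i => (Finset.mem_filter.1 (hg i)).2, fun i a ha => ?_, ?_⟩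
  · exact hcard.trans (hpos (g i) (mem_range.1 (Finset.mem_filter.1 (hg i)).1) a ha)
  · intro i j hij a ha b hb
    exact hs (g i) (g j) (g.lt_iff_lt.2 hij) (mem_range.1 (Finset.mem_filter.1 (hg j)).1) a ha b hb

lemma rho_le_norm (x : ℕ →₀ ℝ) : rho (Phi x) ≤ ENNReal.ofReal ‖comb e x‖ := by
  refine iSup_le fun m => ?_
  revert x
  induction m with
  | zero =>
    intro x
    simp only [rhoN]
    refine iSup_le fun n => ?_
    unfold Phi
    rw [Real.enorm_eq_ofReal_abs]
    exact ENNReal.ofReal_le_ofReal (h.coord_le x n)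
  | succ m ih =>
    intro x
    simp only [rhoN]
    refine max_le (ih x) (iSup_le fun q => ?_)
    obtain ⟨⟨k, t⟩, ht, hk⟩ := q
    simp only at ht hk ⊢
    have h1 : ∀ i, ind (Set.Ico (t i) (t (i+1))) (Phi x)
        = Phi (restr (Finset.Ico (t i) (t (i+1))) x) := by
      intro i
      rw [Phi_restr, Finset.coe_Ico]
    simp only [h1]
    have h2 := h.adm_le' x k (fun i => Finset.Ico (t i) (t (i+1)))
      (by
        intro i _ a ha
        have := (Finset.mem_Ico.1 ha).1
        have := ht (Nat.zero_le i)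
        omega)
      (by
        intro i j hij _ a ha b hb
        have h3 := (Finset.mem_Ico.1 ha).2
        have h4 := (Finset.mem_Ico.1 hb).1
        have := ht (show i + 1 ≤ j by omega)
        omega)
    calc 2⁻¹ * ∑ i ∈ range k, rhoN m (Phi (restr (Finset.Ico (t i) (t (i+1))) x))
        ≤ 2⁻¹ * ∑ i ∈ range k,
            ENNReal.ofReal ‖comb e (restr (Finset.Ico (t i) (t (i+1))) x)‖ := by
          gcongr with i hi
          exact ih _
      _ = 2⁻¹ * ENNReal.ofReal (∑ i ∈ range k,
            ‖comb e (restr (Finset.Ico (t i) (t (i+1))) x)‖) := by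
          rw [ENNReal.ofReal_sum_of_nonneg fun i _ => norm_nonneg _]
      _ ≤ 2⁻¹ * ENNReal.ofReal (2 * ‖comb e x‖) := by
          gcongr
      _ = ENNReal.ofReal ‖comb e x‖ := by
          rw [ENNReal.ofReal_mul (by norm_num), ← mul_assoc]
          norm_num
          rw [ENNReal.inv_mul_cancel (by norm_num) (by norm_num), one_mul]

lemma norm_le_rho (n : ℕ) : ∀ x : ℕ →₀ ℝ, x.support.card = n →
    ‖comb e x‖ ≤ (rho (Phi x)).toReal := by
  classical
  induction n using Nat.strong_induction_on with
  | _ n ih =>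
    intro x hx
    set B := (rho (Phi x)).toReal with hB
    have hmain : ‖comb e x‖ ≤ max B ((1/2) * ‖comb e x‖) := by
      refine (h.norm_eq x).2 ?_
      rintro r (⟨k, rfl⟩ | ⟨N, E, hN, hE, rfl⟩)
      · refine le_trans ?_ (le_max_left _ _)
        have h1 := ENNReal.toReal_mono (rho_Phi_ne_top x) (le_rho (Phi x) k)
        have h2 : (Phi x k).toReal = |x k| := by
          unfold Phi
          rw [Real.enorm_eq_ofReal_abs, ENNReal.toReal_ofReal (abs_nonneg _)]
        rwa [h2] at h1
      · by_cases hfull : ∃ i, x.support ⊆ E i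
        · obtain ⟨i₀, hi₀⟩ := hfull
          refine le_trans ?_ (le_max_right _ _)
          have h1 : ∑ i, ‖comb e (restr (E i) x)‖ = ‖comb e (restr (E i₀) x)‖ := by
            refine Finset.sum_eq_single i₀ (fun j _ hj => ?_) (fun hc => absurd
              (Finset.mem_univ _) hc)
            have : restr (E j) x = 0 := by
              ext k
              by_cases hk : k ∈ E j
              · have : k ∉ x.support := by
                  intro hks
                  have hk' := hi₀ hks
                  rcases lt_or_gt_of_ne hj with hlt | hlt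
                  · exact lt_irrefl _ (hE.2.2 j i₀ hlt k hk k hk')
                  · exact lt_irrefl _ (hE.2.2 i₀ j hlt k hk' k hk)
                rw [restr, Finsupp.filter_apply_pos _ _ hk]
                exact Finsupp.notMem_support_iff.1 this
              · rw [restr, Finsupp.filter_apply_neg _ _ hk]; rfl
            rw [this, comb_zero, norm_zero]
          have h2 : restr (E i₀) x = x := by
            ext k
            by_cases hk : k ∈ E i₀
            · simp [restr, hk]
            · have : k ∉ x.support := fun hks => hk (hi₀ hks)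
              simp [restr, hk, Finsupp.notMem_support_iff.1 this]
          rw [h1, h2]
        · push Not at hfull
          refine le_trans ?_ (le_max_left _ _)
          have h1 : ∀ i, ‖comb e (restr (E i) x)‖ ≤ (rho (Phi (restr (E i) x))).toReal := by
            intro i
            refine ih _ ?_ _ rfl
            rw [← hx]
            apply Finset.card_lt_card
            rw [Finset.ssubset_iff_subset_ne]
            constructor
            · intro k hk
              simp only [restr, Finsupp.support_filter, Finset.mem_filter] at hk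
              exact hk.1
            · intro heq
              apply hfull i
              intro k hk
              rw [← heq] at hk
              simp only [restr, Finsupp.support_filter, Finset.mem_filter] at hk
              exact hk.2
          let S : ℕ → Set ℕ := fun i => if hi : i < N then ↑(E ⟨i, hi⟩) else ∅
          have hS : ∀ i : Fin N, S i = ↑(E i) := by
            intro i
            simp [S, i.2]
          have h2 := sum_fam_le (Phi x) (Phi_bdd x) N S (by
            intro i j hij hj a ha b hb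
            have hi : i < N := by omega
            rw [show S i = ↑(E ⟨i, hi⟩) from hS ⟨i, hi⟩] at ha
            rw [show S j = ↑(E ⟨j, hj⟩) from hS ⟨j, hj⟩] at hb
            exact hE.2.2 ⟨i, hi⟩ ⟨j, hj⟩ hij a (by simpa using ha) b (by simpa using hb)) (by
            intro i hi a ha
            rw [show S i = ↑(E ⟨i, hi⟩) from hS ⟨i, hi⟩] at ha
            exact hE.2.1 ⟨i, hi⟩ a (by simpa using ha))
          rw [Finset.sum_range] at h2
          simp only [hS, ← Phi_restr] at h2
          have h3 : ∑ i, (rho (Phi (restr (E i) x))).toReal ≤ 2 * B := by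
            rw [← ENNReal.toReal_sum fun i _ => rho_Phi_ne_top _]
            have h4 := ENNReal.toReal_mono (ENNReal.mul_ne_top (by norm_num)
              (rho_Phi_ne_top x)) h2
            rwa [ENNReal.toReal_mul, ENNReal.toReal_ofNat] at h4
          have h5 := Finset.sum_le_sum fun i (_ : i ∈ Finset.univ) => h1 i
          linarith
    rcases max_cases B ((1/2) * ‖comb e x‖) with ⟨h1, h2⟩ | ⟨h1, h2⟩
    · rwa [h1] at hmain
    · rw [h1] at hmain
      have h3 : 0 ≤ B := ENNReal.toReal_nonneg
      have h4 := norm_nonneg (comb e x)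
      linarith

/-- The norm of `T` on finitely supported vectors is `rho`. -/
theorem norm_eq_rho (x : ℕ →₀ ℝ) : ‖comb e x‖ = (rho (Phi x)).toReal := by
  refine le_antisymm (h.norm_le_rho _ x rfl) ?_
  have := ENNReal.toReal_mono ENNReal.ofReal_ne_top (h.rho_le_norm x)
  rwa [ENNReal.toReal_ofReal (norm_nonneg _)] at this

lemma rho_eq (x : ℕ →₀ ℝ) : rho (Phi x) = ENNReal.ofReal ‖comb e x‖ := by
  rw [h.norm_eq_rho, ENNReal.ofReal_toReal (rho_Phi_ne_top x)]

end IsTsirelson

end Pool.Agent.H825R3.Tsi
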