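import Mathlib
import Pool.Agent.H825R3.Tsi.Norm

set_option autoImplicit false
open scoped ENNReal
open Finset

namespace Pool.Agent.H825R3.Tsi

/-- from families of nonempty sets to families of possibly empty sets -/
lemma adm_filter (N : (ℕ →₀ ℝ) → ℝ) (hN0 : N 0 = 0) (x : ℕ →₀ ℝ) (B : ℝ) (hB : 0 ≤ B)
    (hadm : ∀ (n : ℕ) (E : Fin n → Finset ℕ), 1 ≤ n → Admissible n E →
      ∑ i, N (restr (E i) x) ≤ B) (k : ℕ) (S : ℕ → Finset ℕ)
    (hpos : ∀ i < k, ∀ a ∈ S i, k ≤ a + 1)
    (hs : ∀ i j, i < j → j < k → ∀ a ∈ S i, ∀ b ∈ S j, a < b) :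
    ∑ i ∈ range k, N (restr (S i) x) ≤ B := by
  classical
  let J : Finset ℕ := (range k).filter fun i => (S i).Nonempty
  have h1 : ∑ i ∈ range k, N (restr (S i) x) = ∑ i ∈ J, N (restr (S i) x) := by
    symm
    refine Finset.sum_subset (Finset.filter_subset _ _) fun i hi hiJ => ?_
    have : S i = ∅ := by
      by_contra hne
      exact hiJ (Finset.mem_filter.2 ⟨hi, Finset.nonempty_iff_ne_empty.2 hne⟩)
    rw [this, restr_empty, hN0]
  rw [h1]
  rcases Nat.eq_zero_or_pos J.card with h0 | h0
  · rw [Finset.card_eq_zero.1 h0, Finset.sum_empty]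
    exact hB
  let g : Fin J.card ↪o ℕ := J.orderEmbOfFin rfl
  have hg : ∀ i, g i ∈ J := fun i => J.orderEmbOfFin_mem rfl i
  have h2 : ∑ i ∈ J, N (restr (S i) x) = ∑ i, N (restr (S (g i)) x) := by
    rw [← Finset.sum_image (s := Finset.univ) (g := g)
      (f := fun i => N (restr (S i) x)) (fun a _ b _ hab => g.injective hab)]
    congr 1
    exact (J.image_orderEmbOfFin_univ rfl).symm
  rw [h2]
  have hcard : J.card ≤ k := (Finset.card_filter_le _ _).trans (by simp)
  refine hadm _ _ h0 ⟨fun i => (Finset.mem_filter.1 (hg i)).2, fun i a ha => ?_, ?_⟩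
  · exact hcard.trans (hpos (g i) (mem_range.1 (Finset.mem_filter.1 (hg i)).1) a ha)
  · intro i j hij a ha b hb
    exact hs (g i) (g j) (g.lt_iff_lt.2 hij) (mem_range.1 (Finset.mem_filter.1 (hg j)).1) a ha b hb

/-- finitely supported sequences with the Tsirelson norm -/
def C00 : Type := ℕ →₀ ℝ

noncomputable instance : AddCommGroup C00 := inferInstanceAs (AddCommGroup (ℕ →₀ ℝ))
noncomputable instance : Module ℝ C00 := inferInstanceAs (Module ℝ (ℕ →₀ ℝ))

/-- the underlying finitely supported sequence -/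
noncomputable def vl : C00 ≃ₗ[ℝ] (ℕ →₀ ℝ) := LinearEquiv.refl ℝ (ℕ →₀ ℝ)

noncomputable instance : Norm C00 := ⟨fun x => (rho (Phi (vl x))).toReal⟩

lemma C00.norm_def (x : C00) : ‖x‖ = (rho (Phi (vl x))).toReal := rfl

lemma Phi_add_le (x y : ℕ →₀ ℝ) : Phi (x + y) ≤ Phi x + Phi y := fun n => by
  simp only [Phi, Finsupp.add_apply, Pi.add_apply]
  exact enorm_add_le _ _

lemma Phi_smul (c : ℝ) (x : ℕ →₀ ℝ) : Phi (c • x) = ‖c‖ₑ • Phi x := by
  funext n
  simp only [Phi, Finsupp.smul_apply, Pi.smul_apply, smul_eq_mul, enorm_mul]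

lemma Phi_zero : Phi 0 = 0 := by
  funext n
  simp [Phi]

lemma C00.core : NormedSpace.Core ℝ C00 where
  norm_nonneg x := ENNReal.toReal_nonneg
  norm_smul c x := by
    rw [C00.norm_def, C00.norm_def, map_smul, Phi_smul, rho_smul, ENNReal.toReal_mul]
    simp
  norm_triangle x y := by
    rw [C00.norm_def, C00.norm_def, C00.norm_def, map_add,
      ← ENNReal.toReal_add (rho_Phi_ne_top _) (rho_Phi_ne_top _)]
    refine ENNReal.toReal_mono ?_ ((rho_mono (Phi_add_le _ _)).trans (rho_add _ _))
    exact ENNReal.add_ne_top.2 ⟨rho_Phi_ne_top _, rho_Phi_ne_top _⟩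
  norm_eq_zero_iff x := by
    rw [C00.norm_def]
    constructor
    · intro h
      rw [ENNReal.toReal_eq_zero_iff] at h
      rcases h with h | h
      · apply vl.injective
        rw [map_zero]
        ext n
        have := le_rho (Phi (vl x)) n
        rw [h] at this
        simpa [Phi] using this
      · exact absurd h (rho_Phi_ne_top _)
    · rintro rfl
      rw [map_zero, Phi_zero, rho_zero]
      simp

noncomputable instance : NormedAddCommGroup C00 := NormedAddCommGroup.ofCore C00.core
noncomputable instance : NormedSpace ℝ C00 := NormedSpace.ofCore C00.core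

lemma C00.norm_def' (x : C00) : ‖x‖ = (rho (Phi (vl x))).toReal := rfl

/-- Tsirelson space -/
abbrev TT : Type := UniformSpace.Completion C00

/-- the unit vectors -/
noncomputable def ee (k : ℕ) : TT := ((vl.symm (Finsupp.single k 1) : C00) : TT)

lemma comb_ee (x : ℕ →₀ ℝ) : comb ee x = ((vl.symm x : C00) : TT) := by
  have h1 : comb ee = (Finsupp.linearCombination ℝ ee : (ℕ →₀ ℝ) → TT) := rfl
  have h2 : (Finsupp.linearCombination ℝ ee : (ℕ →₀ ℝ) →ₗ[ℝ] TT) =
      (UniformSpace.Completion.toComplL (𝕜 := ℝ) (E := C00)).toLinearMap.comp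
        vl.symm.toLinearMap := by
    ext k
    simp [ee]
  rw [h1, h2]
  rfl

lemma norm_comb_ee (x : ℕ →₀ ℝ) : ‖comb ee x‖ = (rho (Phi x)).toReal := by
  rw [comb_ee, UniformSpace.Completion.norm_coe, C00.norm_def', LinearEquiv.apply_symm_apply]

theorem isTsirelson_TT : IsTsirelson TT ee where
  complete := inferInstance
  dense_span := by
    have h1 : Dense (Set.range ((↑) : C00 → TT)) := UniformSpace.Completion.denseRange_coe
    refine h1.mono ?_
    rintro _ ⟨x, rfl⟩
    have h2 : (x : TT) = Finsupp.linearCombination ℝ ee (vl x) := by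
      have := comb_ee (vl x)
      rw [LinearEquiv.symm_apply_apply] at this
      rw [← this]
      rfl
    rw [h2]
    have h3 : Finsupp.linearCombination ℝ ee (vl x) ∈
        LinearMap.range (Finsupp.linearCombination ℝ ee) := ⟨_, rfl⟩
    rw [Finsupp.range_linearCombination] at h3
    exact h3
  norm_eq := by
    intro x
    simp only [norm_comb_ee]
    constructor
    · rintro r (⟨k, rfl⟩ | ⟨n, E, hn, hE, rfl⟩)
      · have h1 := ENNReal.toReal_mono (rho_Phi_ne_top x) (le_rho (Phi x) k)
        have h2 : (Phi x k).toReal = |x k| := by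
          unfold Phi
          rw [Real.enorm_eq_ofReal_abs, ENNReal.toReal_ofReal (abs_nonneg _)]
        rwa [h2] at h1
      · let S : ℕ → Set ℕ := fun i => if hi : i < n then ↑(E ⟨i, hi⟩) else ∅
        have hS : ∀ i : Fin n, S i = ↑(E i) := by
          intro i
          simp [S, i.2]
        have h2 := sum_fam_le (Phi x) (Phi_bdd x) n S (by
          intro i j hij hj a ha b hb
          have hi : i < n := by omega
          rw [show S i = ↑(E ⟨i, hi⟩) from hS ⟨i, hi⟩] at ha
          rw [show S j = ↑(E ⟨j, hj⟩) from hS ⟨j, hj⟩] at hb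
          exact hE.2.2 ⟨i, hi⟩ ⟨j, hj⟩ hij a (by simpa using ha) b (by simpa using hb)) (by
          intro i hi a ha
          rw [show S i = ↑(E ⟨i, hi⟩) from hS ⟨i, hi⟩] at ha
          exact hE.2.1 ⟨i, hi⟩ a (by simpa using ha))
        rw [Finset.sum_range] at h2
        simp only [hS, ← Phi_restr] at h2
        have h3 : ∑ i, (rho (Phi (restr (E i) x))).toReal ≤ 2 * (rho (Phi x)).toReal := by
          rw [← ENNReal.toReal_sum fun i _ => rho_Phi_ne_top _]
          have h4 := ENNReal.toReal_mono (ENNReal.mul_ne_top (by norm_num)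
            (rho_Phi_ne_top x)) h2
          rwa [ENNReal.toReal_mul, ENNReal.toReal_ofNat] at h4
        linarith
    · intro B hB
      have hB1 : ∀ k, |x k| ≤ B := fun k => hB (Or.inl ⟨k, rfl⟩)
      have hB0 : 0 ≤ B := (abs_nonneg _).trans (hB1 0)
      have hB2 : ∀ (n : ℕ) (E : Fin n → Finset ℕ), 1 ≤ n → Admissible n E →
          ∑ i, (rho (Phi (restr (E i) x))).toReal ≤ 2 * B := by
        intro n E hn hE
        have := hB (Or.inr ⟨n, E, hn, hE, rfl⟩)
        linarith
      refine ENNReal.toReal_le_of_le_ofReal hB0 ?_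
      refine rho_le_of _ _ (fun n => ?_) fun k t ht hk => ?_
      · unfold Phi
        rw [Real.enorm_eq_ofReal_abs]
        exact ENNReal.ofReal_le_ofReal (hB1 n)
      · have h1 : ∀ i, ind (Set.Ico (t i) (t (i+1))) (Phi x)
            = Phi (restr (Finset.Ico (t i) (t (i+1))) x) := by
          intro i
          rw [Phi_restr, Finset.coe_Ico]
        simp only [h1]
        have h2 := adm_filter (fun y => (rho (Phi y)).toReal) (by
          simp only [Phi_zero, rho_zero]; simp) x (2 * B) (by linarith) hB2 k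
          (fun i => Finset.Ico (t i) (t (i+1)))
          (by
            intro i _ a ha
            have := (Finset.mem_Ico.1 ha).1
            have := ht (Nat.zero_le i)
            omega)
          (by
            intro i j hij _ a ha b hb
            have h3 := (Finset.mem_Ico.1 ha).2
            have h4 := (Finset.mem_Ico.1 hb).1
            have := ht (show i + 1 ≤ j by omega)
            omega)
        rw [← ENNReal.toReal_sum fun i _ => rho_Phi_ne_top _] at h2
        have h3 : (∑ i ∈ range k, rho (Phi (restr (Finset.Ico (t i) (t (i+1))) x))) ≠ ∞ :=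
          ENNReal.sum_ne_top.2 fun i _ => rho_Phi_ne_top _
        rw [← ENNReal.ofReal_toReal h3]
        refine (ENNReal.ofReal_le_ofReal h2).trans (le_of_eq ?_)
        rw [ENNReal.ofReal_mul (by norm_num)]
        norm_num

end Pool.Agent.H825R3.Tsi
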