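import Mathlib
import Pool.Agent.H825R3.Tsi.Norm

set_option autoImplicit false
open scoped ENNReal
open Finset Filter Topology

namespace Pool.Agent.H825R3.Tsi

variable {T : Type} [NormedAddCommGroup T] [NormedSpace ℝ T] {e : ℕ → T}

/-- finite linear combinations -/
noncomputable def Lc (e : ℕ → T) : (ℕ →₀ ℝ) →ₗ[ℝ] T := Finsupp.linearCombination ℝ e

lemma Lc_single (k : ℕ) (a : ℝ) : Lc e (Finsupp.single k a) = a • e k := by
  simp [Lc]

/-- coordinatewise multiplication -/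
noncomputable def Mul (w : ℕ → ℝ) : (ℕ →₀ ℝ) →ₗ[ℝ] (ℕ →₀ ℝ) where
  toFun x := Finsupp.onFinset x.support (fun i => w i * x i) (by
    intro i hi
    rw [Finsupp.mem_support_iff]
    intro h
    apply hi
    rw [h, mul_zero])
  map_add' x y := by
    ext i
    simp [Finsupp.onFinset_apply, mul_add]
  map_smul' c x := by
    ext i
    simp [Finsupp.onFinset_apply]
    ring

lemma Mul_apply (w : ℕ → ℝ) (x : ℕ →₀ ℝ) (i : ℕ) : Mul w x i = w i * x i := rfl

lemma rho_Mul (w : ℕ → ℝ) (B : ℝ≥0∞) (hB : ∀ i, ‖w i‖ₑ ≤ B) (x : ℕ →₀ ℝ) :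
    rho (Phi (Mul w x)) ≤ B * rho (Phi x) := by
  rw [← rho_smul]
  refine rho_mono fun n => ?_
  simp only [Phi, Mul_apply, Pi.smul_apply, smul_eq_mul, enorm_mul]
  gcongr
  exact hB n

lemma Phi_mapDomain {θ : ℕ → ℕ} (hθ : Function.Injective θ) (x : ℕ →₀ ℝ) :
    Phi (Finsupp.mapDomain θ x) = push θ (Phi x) := by
  funext n
  by_cases hn : n ∈ Set.range θ
  · obtain ⟨i, rfl⟩ := hn
    rw [push_apply hθ]
    simp only [Phi]
    rw [Finsupp.mapDomain_apply hθ]
  · have h1 : Phi (Finsupp.mapDomain θ x) n = 0 := by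
      simp only [Phi]
      rw [Finsupp.mapDomain_notin_range _ _ hn]; simp
    rw [h1]
    refine (le_antisymm (push_le fun i hi => ?_) bot_le).symm
    exact absurd ⟨i, hi⟩ hn

lemma rho_comap {θ : ℕ → ℕ} (hθ : StrictMono θ) (x : ℕ →₀ ℝ) :
    rho (Phi (Finsupp.comapDomain θ x hθ.injective.injOn)) ≤ rho (Phi x) := by
  refine (le_push hθ _ (Phi_bdd _)).trans (rho_mono fun n => push_le fun i hi => ?_)
  simp only [Phi, Finsupp.comapDomain_apply]
  rw [hi]

namespace IsTsirelson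

variable (h : IsTsirelson T e)
include h

lemma denseRange : DenseRange (Lc e) := by
  have h1 := h.dense_span
  rw [← Finsupp.range_linearCombination] at h1
  exact h1

lemma norm_Lc (x : ℕ →₀ ℝ) : ‖Lc e x‖ = (rho (Phi x)).toReal := h.norm_eq_rho x

/-- bounded operators from estimates of the norm on finitely supported sequences -/
lemma exists_op (u : (ℕ →₀ ℝ) →ₗ[ℝ] (ℕ →₀ ℝ)) (C : ℝ≥0∞) (hC : C ≠ ∞)
    (hu : ∀ x, rho (Phi (u x)) ≤ C * rho (Phi x)) :
    ∃ U : T →L[ℝ] T, (∀ x, U (Lc e x) = Lc e (u x)) ∧ ∀ y, ‖U y‖ ≤ C.toReal * ‖y‖ := by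
  have := h.complete
  have hbd : ∀ x, ‖((Lc e).comp u) x‖ ≤ C.toReal * ‖Lc e x‖ := by
    intro x
    rw [LinearMap.comp_apply, h.norm_Lc, h.norm_Lc, ← ENNReal.toReal_mul]
    exact ENNReal.toReal_mono (ENNReal.mul_ne_top hC (rho_Phi_ne_top x)) (hu x)
  refine ⟨((Lc e).comp u).extendOfNorm (Lc e), fun x => ?_, fun y => ?_⟩
  · exact LinearMap.extendOfNorm_eq h.denseRange ⟨_, hbd⟩ x
  · exact LinearMap.norm_extendOfNorm_apply_le h.denseRange _ hbd y

/-- existence of the biorthogonal functionals -/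
lemma exists_biorth : ∃ es : ℕ → StrongDual ℝ T, Biorthogonal e es := by
  have hbd : ∀ k, ∀ x, ‖(Finsupp.lapply k : (ℕ →₀ ℝ) →ₗ[ℝ] ℝ) x‖ ≤ 1 * ‖Lc e x‖ := by
    intro k x
    rw [one_mul]
    exact h.coord_le x k
  refine ⟨fun k => (Finsupp.lapply k : (ℕ →₀ ℝ) →ₗ[ℝ] ℝ).extendOfNorm (Lc e), ?_⟩
  intro j k
  have h1 := LinearMap.extendOfNorm_eq h.denseRange ⟨_, hbd j⟩ (Finsupp.single k 1)
  rw [Lc_single, one_smul] at h1
  rw [h1]
  simp only [Finsupp.lapply_apply, Finsupp.single_apply]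
  by_cases hjk : j = k
  · simp [hjk]
  · rw [if_neg hjk, if_neg (Ne.symm hjk)]

variable {es : ℕ → StrongDual ℝ T} (hes : Biorthogonal e es)
include hes

omit h in
lemma es_Lc (k : ℕ) (x : ℕ →₀ ℝ) : es k (Lc e x) = x k := by
  have : ((es k).toLinearMap.comp (Lc e)) = Finsupp.lapply k := by
    ext j
    simp only [LinearMap.comp_apply, Finsupp.lsingle_apply, Lc_single, one_smul,
      Finsupp.lapply_apply, ContinuousLinearMap.coe_coe, hes k j, Finsupp.single_apply]
    by_cases hjk : k = j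
    · simp [hjk]
    · rw [if_neg hjk, if_neg (Ne.symm hjk)]
  exact LinearMap.congr_fun this x

lemma abs_es_le (k : ℕ) (y : T) : |es k y| ≤ ‖y‖ := by
  refine h.denseRange.induction_on (p := fun y => |es k y| ≤ ‖y‖) y
    (isClosed_le (by fun_prop) (by fun_prop)) fun x => ?_
  rw [es_Lc hes]
  exact h.coord_le x k

/-- `ℓ_1` estimate on a window -/
lemma window (a : ℕ) (F : Finset ℕ) (hF : ∀ k ∈ F, a ≤ k ∧ k < h3 a) (y : T) :
    ∑ k ∈ F, |es k y| ≤ 8 * ‖y‖ := by
  refine h.denseRange.induction_on (p := fun y => ∑ k ∈ F, |es k y| ≤ 8 * ‖y‖) y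
    (isClosed_le (by fun_prop) (by fun_prop)) fun x => ?_
  simp only [es_Lc hes]
  have h1 : ∑ k ∈ F, ‖x k‖ₑ ≤ 8 * rho (Phi x) :=
    calc ∑ k ∈ F, ‖x k‖ₑ = ∑ k ∈ F, ind (Set.Ico a (h3 a)) (Phi x) k := by
          refine Finset.sum_congr rfl fun k hk => ?_
          rw [ind_apply_mem (show k ∈ Set.Ico a (h3 a) from hF k hk)]
          rfl
      _ ≤ ∑' k, ind (Set.Ico a (h3 a)) (Phi x) k := ENNReal.sum_le_tsum F
      _ ≤ 8 * rho (ind (Set.Ico a (h3 a)) (Phi x)) := L1_h3 a _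
      _ ≤ 8 * rho (Phi x) := by gcongr; exact rho_mono (ind_le _ _)
  have h2 := ENNReal.toReal_mono (ENNReal.mul_ne_top (by norm_num) (rho_Phi_ne_top x)) h1
  rw [ENNReal.toReal_mul, ENNReal.toReal_ofNat, ENNReal.toReal_sum (fun i _ => enorm_ne_top),
    ← h.norm_Lc] at h2
  simpa using h2

/-- right shift operators -/
lemma exists_push {θ : ℕ → ℕ} (hθ : StrictMono θ) {a₀ : ℕ} (ha₀ : 1 ≤ a₀)
    (hg : ∀ i, θ i < h3^[i+1] a₀) :
    ∃ V : T →L[ℝ] T, ∀ i, V (e i) = e (θ i) := by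
  obtain ⟨C, hC, hCx⟩ := growth' hθ ha₀ hg
  obtain ⟨V, hV, _⟩ := h.exists_op (Finsupp.lmapDomain ℝ ℝ θ) C hC (fun x => by
    rw [Finsupp.lmapDomain_apply, Phi_mapDomain hθ.injective]
    exact hCx _ (Phi_bdd x))
  refine ⟨V, fun i => ?_⟩
  have := hV (Finsupp.single i 1)
  rw [Lc_single, one_smul, Finsupp.lmapDomain_apply, Finsupp.mapDomain_single, Lc_single,
    one_smul] at this
  exact this

/-- weighted left shift operators -/
lemma exists_pull {θ : ℕ → ℕ} (hθ : StrictMono θ) (w : ℕ → ℝ) (B : ℝ) (hw : ∀ i, |w i| ≤ B) :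
    ∃ S : T →L[ℝ] T, ∀ y i, es i (S y) = w i * es (θ i) y := by
  obtain ⟨S, hS, _⟩ := h.exists_op ((Mul w).comp (Finsupp.lcomapDomain θ hθ.injective))
    (ENNReal.ofReal B) ENNReal.ofReal_ne_top (fun x => by
    rw [LinearMap.comp_apply]
    refine (rho_Mul w (ENNReal.ofReal B) (fun i => ?_) _).trans ?_
    · rw [Real.enorm_eq_ofReal_abs]
      exact ENNReal.ofReal_le_ofReal (hw i)
    · gcongr
      exact rho_comap hθ x)
  refine ⟨S, fun y i => ?_⟩
  refine h.denseRange.induction_on (p := fun y => es i (S y) = w i * es (θ i) y) y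
    (isClosed_eq (by fun_prop) (by fun_prop)) fun x => ?_
  rw [hS, es_Lc hes, es_Lc hes]
  rfl

/-- the norm is at most the `ℓ_1` norm of the coordinates -/
lemma norm_le_of_sum (y : T) (B : ℝ) (hB : ∀ n, ∑ i ∈ range n, |es i y| ≤ B) : ‖y‖ ≤ B := by
  -- the partial sum projections
  have hP : ∀ n, ∃ P : T →L[ℝ] T, (∀ x, P (Lc e x) = Lc e (Mul (fun i => if i < n then 1 else 0) x))
      ∧ ∀ y, ‖P y‖ ≤ 1 * ‖y‖ := by
    intro n
    obtain ⟨P, h1, h2⟩ := h.exists_op (Mul (fun i => if i < n then 1 else 0)) 1 (by simp)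
      (rho_Mul _ 1 (fun i => by split_ifs <;> simp))
    exact ⟨P, h1, by simpa using h2⟩
  choose P hP1 hP2 using hP
  have hPn : ∀ n y, P n y = ∑ i ∈ range n, es i y • e i := by
    intro n y
    refine h.denseRange.induction_on (p := fun y => P n y = ∑ i ∈ range n, es i y • e i) y
      (isClosed_eq (by fun_prop) (by fun_prop)) fun x => ?_
    rw [hP1]
    simp only [es_Lc hes]
    have : Mul (fun i => if i < n then 1 else 0) x
        = ∑ i ∈ range n, Finsupp.single i (x i) := by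
      ext j
      rw [Mul_apply, Finsupp.finset_sum_apply]
      by_cases hj : j < n
      · rw [if_pos hj, one_mul, Finset.sum_eq_single j]
        · simp
        · intro b _ hb
          simp [hb]
        · intro hc
          exact absurd (mem_range.2 hj) hc
      · rw [if_neg hj, zero_mul, Finset.sum_eq_zero]
        intro b hb
        have : b ≠ j := by have := mem_range.1 hb; omega
        simp [this]
    rw [this, map_sum]
    simp only [Lc_single]
  have he : ∀ i, ‖e i‖ ≤ 1 := by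
    intro i
    have h1 := h.norm_Lc (Finsupp.single i 1)
    rw [Lc_single, one_smul] at h1
    rw [h1]
    have h2 : rho (Phi (Finsupp.single i (1:ℝ))) ≤ 1 := by
      refine (rho_le_tsum _).trans ?_
      rw [tsum_Phi]
      refine (Finset.sum_le_sum_of_subset Finsupp.support_single_subset).trans ?_
      simp
    exact ENNReal.toReal_le_of_le_ofReal zero_le_one (by simpa using h2)
  have hbd : ∀ n, ‖P n y‖ ≤ B := by
    intro n
    rw [hPn]
    refine (norm_sum_le _ _).trans (le_trans (Finset.sum_le_sum fun i _ => ?_) (hB n))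
    rw [norm_smul, Real.norm_eq_abs]
    calc |es i y| * ‖e i‖ ≤ |es i y| * 1 := by gcongr; exact he i
      _ = _ := mul_one _
  refine le_of_forall_pos_le_add fun ε hε => ?_
  obtain ⟨x, hx⟩ := h.denseRange.exists_dist_lt y (show 0 < ε / 2 by linarith)
  obtain ⟨N, hN⟩ : ∃ N, ∀ n, N ≤ n → x n = 0 := by
    refine ⟨x.support.sup id + 1, fun n hn => ?_⟩
    by_contra hc
    have : n ≤ x.support.sup id := Finset.le_sup (f := id) (Finsupp.mem_support_iff.2 hc)
    omega
  have h1 : P N (Lc e x) = Lc e x := by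
    rw [hP1]
    congr 1
    ext j
    rw [Mul_apply]
    by_cases hj : j < N
    · rw [if_pos hj, one_mul]
    · rw [if_neg hj, hN j (not_lt.1 hj), mul_zero]
  rw [dist_eq_norm] at hx
  calc ‖y‖ = ‖(y - Lc e x) + (P N (Lc e x - y) + P N y)‖ := by
        rw [map_sub, h1]; congr 1; abel
    _ ≤ ‖y - Lc e x‖ + (‖P N (Lc e x - y)‖ + ‖P N y‖) :=
        (norm_add_le _ _).trans (add_le_add le_rfl (norm_add_le _ _))
    _ ≤ ‖y - Lc e x‖ + (1 * ‖Lc e x - y‖ + B) := by gcongr; exacts [hP2 _ _, hbd _]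
    _ ≤ B + ε := by rw [norm_sub_rev (Lc e x) y]; linarith

end IsTsirelson

end Pool.Agent.H825R3.Tsi
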