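import Mathlib
import Pool.Agent.H825R3.Tsi.Oper

set_option autoImplicit false
open scoped ENNReal
open Finset Filter Topology

namespace Pool.Agent.H825R3.Tsi

/-- recursion with full history -/
lemma exists_hist {α : Type*} [Inhabited α] (P : ℕ → (ℕ → α) → α → Prop)
    (hcongr : ∀ n f g x, (∀ j < n, f j = g j) → P n f x → P n g x)
    (hex : ∀ n f, (∀ j < n, P j f (f j)) → ∃ x, P n f x) :
    ∃ s : ℕ → α, ∀ n, P n s (s n) := by
  classical
  let step : ℕ → (ℕ → α) → α := fun n f => if h : ∃ x, P n f x then h.choose else default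
  let F : ℕ → ℕ → α := fun n => Nat.rec (fun _ => default)
    (fun n f => Function.update f n (step n f)) n
  have hF : ∀ n, F (n+1) = Function.update (F n) n (step n (F n)) := fun n => rfl
  let s : ℕ → α := fun n => F (n+1) n
  have hFs : ∀ m, ∀ j < m, F m j = s j := by
    intro m
    induction m with
    | zero => intro j hj; omega
    | succ m ih =>
      intro j hj
      rcases Nat.lt_succ_iff_lt_or_eq.1 hj with h | h
      · rw [hF, Function.update_of_ne (by omega)]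
        exact ih j h
      · rw [h]
  refine ⟨s, fun n => ?_⟩
  induction n using Nat.strong_induction_on with
  | _ n ih =>
    obtain ⟨x, hx⟩ := hex n s ih
    have h1 : ∃ x, P n (F n) x := ⟨x, hcongr n s (F n) x (fun j hj => (hFs n j hj).symm) hx⟩
    have h2 : s n = step n (F n) := by
      show F (n+1) n = _
      rw [hF, Function.update_self]
    have h3 : P n (F n) (step n (F n)) := by
      simp only [step, h1, dif_pos]
      exact h1.choose_spec
    rw [h2]
    exact hcongr n (F n) s _ (hFs n) h3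

namespace IsTsirelson

variable {T : Type} [NormedAddCommGroup T] [NormedSpace ℝ T] {e : ℕ → T}
variable (h : IsTsirelson T e)
include h

lemma norm_e_le (i : ℕ) : ‖e i‖ ≤ 1 := by
  have h1 := h.norm_Lc (Finsupp.single i 1)
  rw [Lc_single, one_smul] at h1
  rw [h1]
  have h2 : rho (Phi (Finsupp.single i (1:ℝ))) ≤ 1 := by
    refine (rho_le_tsum _).trans ?_
    rw [tsum_Phi]
    refine (Finset.sum_le_sum_of_subset Finsupp.support_single_subset).trans ?_
    simp
  exact ENNReal.toReal_le_of_le_ofReal zero_le_one (by simpa using h2)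

variable {es : ℕ → StrongDual ℝ T} (hes : Biorthogonal e es)
include hes

/-- one step of the selection -/
lemma select (A : T →L[ℝ] T) {M δ ε : ℝ} (hδ : 0 < δ) (hε : 0 < ε)
    (hA : 2 * ‖A‖ ≤ M) (r a q N1 N2 : ℕ) (f : ℕ → ℕ × ℕ)
    (hq : M / ε ≤ q) (hN1 : 8 * M / ε ≤ N1) (hN2 : 16 * M / δ < N2)
    (hcount : (2 * q + 1) ^ r * N2 + r * N1 < h3 a - a) :
    ∃ k l : ℕ, a ≤ k ∧ k < l ∧ l < h3 a ∧
      (∀ j < r, |es k (A (e (f j).1 - e (f j).2))| ≤ ε ∧
        |es (f j).1 (A (e k - e l))| ≤ ε) ∧ |es k (A (e l))| ≤ δ / 2 := by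
  classical
  have hM0 : 0 ≤ M := le_trans (by positivity) hA
  have hAe : ∀ i, ‖A (e i)‖ ≤ M / 2 := by
    intro i
    calc ‖A (e i)‖ ≤ ‖A‖ * ‖e i‖ := A.le_opNorm _
      _ ≤ ‖A‖ * 1 := by gcongr; exact h.norm_e_le i
      _ ≤ M / 2 := by linarith
  have hAx : ∀ i j, ‖A (e i - e j)‖ ≤ M := by
    intro i j
    rw [map_sub]
    refine (norm_sub_le _ _).trans ?_
    linarith [hAe i, hAe j]
  -- bad coordinates
  let bad : ℕ → Finset ℕ := fun j => (Finset.Ico a (h3 a)).filter fun k =>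
    ε < |es k (A (e (f j).1 - e (f j).2))|
  have hbad : ∀ j, (bad j).card ≤ N1 := by
    intro j
    have h1 := h.window hes a (bad j) (fun k hk => Finset.mem_Ico.1 (Finset.mem_filter.1 hk).1)
      (A (e (f j).1 - e (f j).2))
    have h2 : ε * (bad j).card ≤ ∑ k ∈ bad j, |es k (A (e (f j).1 - e (f j).2))| := by
      rw [mul_comm, ← nsmul_eq_mul]
      exact Finset.card_nsmul_le_sum _ _ _ fun k hk => (Finset.mem_filter.1 hk).2.le
    have h3 : ((bad j).card : ℝ) ≤ 8 * M / ε := by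
      rw [le_div_iff₀ hε]
      have := hAx (f j).1 (f j).2
      linarith
    exact_mod_cast h3.trans hN1
  let Cnd : Finset ℕ := (Finset.Ico a (h3 a)) \ (range r).biUnion bad
  have hCnd : (2 * q + 1) ^ r * N2 < Cnd.card := by
    have h1 : ((range r).biUnion bad).card ≤ r * N1 := by
      refine (Finset.card_biUnion_le).trans ?_
      calc ∑ j ∈ range r, (bad j).card ≤ ∑ j ∈ range r, N1 := Finset.sum_le_sum fun j _ => hbad j
        _ = r * N1 := by simp
    have h2 : (Finset.Ico a (h3 a)).card - ((range r).biUnion bad).card ≤ Cnd.card :=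
      Finset.le_card_sdiff _ _
    rw [Nat.card_Ico] at h2
    omega
  -- pigeonhole
  let κ : ℕ → (Fin r → ℤ) := fun k j => ⌊es (f j).1 (A (e k)) / ε⌋
  let tgt : Finset (Fin r → ℤ) := Fintype.piFinset fun _ => Finset.Icc (-(q:ℤ)) q
  have hmaps : ∀ k ∈ Cnd, κ k ∈ tgt := by
    intro k _
    rw [Fintype.mem_piFinset]
    intro j
    rw [Finset.mem_Icc]
    have h1 : |es (f j).1 (A (e k)) / ε| ≤ q := by
      rw [abs_div, abs_of_pos hε]
      refine le_trans ?_ hq
      gcongr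
      refine (h.abs_es_le hes _ _).trans ((hAe k).trans (by linarith))
    rw [abs_le] at h1
    constructor
    · rw [Int.le_floor]
      push_cast
      exact h1.1
    · have h2 := Int.floor_le (es (f j).1 (A (e k)) / ε)
      have : ((⌊es (f j).1 (A (e k)) / ε⌋ : ℤ) : ℝ) ≤ ((q : ℤ) : ℝ) := by
        push_cast
        linarith [h1.2]
      exact_mod_cast this
  have htgt : tgt.card = (2 * q + 1) ^ r := by
    rw [Fintype.card_piFinset_const, Int.card_Icc]
    congr 1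
    omega
  obtain ⟨v, _, hv⟩ := Finset.exists_lt_card_fiber_of_mul_lt_card_of_maps_to hmaps
    (n := N2) (by rw [htgt]; exact hCnd)
  set Q := Cnd.filter fun k => κ k = v with hQ
  have hQne : Q.Nonempty := Finset.card_pos.1 (by omega)
  set l := Q.max' hQne with hl
  have hlQ : l ∈ Q := Q.max'_mem hQne
  have hQmem : ∀ k ∈ Q, a ≤ k ∧ k < h3 a ∧ (∀ j < r, |es k (A (e (f j).1 - e (f j).2))| ≤ ε)
      ∧ κ k = v := by
    intro k hk
    have h1 := Finset.mem_filter.1 hk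
    have h2 := Finset.mem_sdiff.1 h1.1
    have h3' := Finset.mem_Ico.1 h2.1
    refine ⟨h3'.1, h3'.2, fun j hj => ?_, h1.2⟩
    by_contra hc
    exact h2.2 (Finset.mem_biUnion.2 ⟨j, mem_range.2 hj, Finset.mem_filter.2
      ⟨h2.1, not_le.1 hc⟩⟩)
  have hex : ∃ k ∈ Q.erase l, |es k (A (e l))| ≤ δ / 2 := by
    by_contra hc
    push Not at hc
    have h1 := h.window hes a (Q.erase l) (fun k hk => by
      have := hQmem k (Finset.mem_of_mem_erase hk)
      exact ⟨this.1, this.2.1⟩) (A (e l))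
    have h2 : (δ / 2) * (Q.erase l).card ≤ ∑ k ∈ Q.erase l, |es k (A (e l))| := by
      rw [mul_comm, ← nsmul_eq_mul]
      exact Finset.card_nsmul_le_sum _ _ _ fun k hk => (hc k hk).le
    have h3' : (N2 : ℝ) ≤ (Q.erase l).card := by
      rw [Finset.card_erase_of_mem hlQ]
      have : N2 ≤ Q.card - 1 := by omega
      exact_mod_cast this
    have h4' : 16 * M / δ < (Q.erase l).card := lt_of_lt_of_le hN2 h3'
    rw [div_lt_iff₀ hδ] at h4'
    have := hAe l
    nlinarith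
  obtain ⟨k, hkQ, hk⟩ := hex
  have hkQ' := Finset.mem_of_mem_erase hkQ
  have hkl : k < l := by
    refine lt_of_le_of_ne (Q.le_max' k hkQ') (Finset.ne_of_mem_erase hkQ)
  have hk1 := hQmem k hkQ'
  have hl1 := hQmem l hlQ
  refine ⟨k, l, hk1.1, hkl, hl1.2.1, fun j hj => ⟨hk1.2.2.1 j hj, ?_⟩, hk⟩
  have h1 : κ k ⟨j, hj⟩ = κ l ⟨j, hj⟩ := by rw [hk1.2.2.2, hl1.2.2.2]
  have h2 := Int.abs_sub_lt_one_of_floor_eq_floor h1
  rw [← sub_div, abs_div, abs_of_pos hε, div_lt_one hε] at h2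
  rw [map_sub, map_sub]
  exact h2.le

end IsTsirelson

/-- the elementary growth inequality -/
lemma growth_ineq (c : ℕ) : ∃ a₀ : ℕ, 1 ≤ a₀ ∧ ∀ a r, a₀ ≤ a → r ≤ a →
    (2 * (c * 8 ^ (r + 1)) + 1) ^ r * c + r * (c * 8 ^ (r + 1)) < h3 a - a := by
  refine ⟨2 * c + 8, by omega, fun a r ha hr => ?_⟩
  have h2a : ∀ n : ℕ, n < 2 ^ n := fun n => Nat.lt_two_pow_self
  have hc : 2 * c + 1 ≤ 2 ^ a := by have := h2a a; omega
  have hca : c ≤ 2 ^ a := by omega
  have haa : a ≤ 2 ^ a := (h2a a).le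
  have h8 : ∀ n : ℕ, (8:ℕ) ^ n = 2 ^ (3 * n) := fun n => by
    rw [pow_mul]; norm_num
  have h8r : (8:ℕ) ^ (r + 1) ≤ 2 ^ (3 * a + 3) := by
    rw [h8]
    exact Nat.pow_le_pow_right (by norm_num) (by omega)
  have hbase : 2 * (c * 8 ^ (r + 1)) + 1 ≤ 2 ^ (4 * a + 3) := by
    calc 2 * (c * 8 ^ (r + 1)) + 1 ≤ 2 * (c * 2 ^ (3 * a + 3)) + 2 ^ (3 * a + 3) := by
          have : 1 ≤ 2 ^ (3 * a + 3) := Nat.one_le_two_pow
          gcongr
      _ = (2 * c + 1) * 2 ^ (3 * a + 3) := by ring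
      _ ≤ 2 ^ a * 2 ^ (3 * a + 3) := by gcongr
      _ = 2 ^ (4 * a + 3) := by rw [← pow_add]; congr 1; ring
  have hbr : (2 * (c * 8 ^ (r + 1)) + 1) ^ r ≤ 2 ^ ((4 * a + 3) * a) := by
    calc (2 * (c * 8 ^ (r + 1)) + 1) ^ r ≤ (2 ^ (4 * a + 3)) ^ r := by gcongr
      _ = 2 ^ ((4 * a + 3) * r) := by rw [← pow_mul]
      _ ≤ 2 ^ ((4 * a + 3) * a) := Nat.pow_le_pow_right (by norm_num) (by gcongr)
  let X := 4 * a ^ 2 + 5 * a + 3
  have t1 : (2 * (c * 8 ^ (r + 1)) + 1) ^ r * c ≤ 2 ^ X := by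
    calc (2 * (c * 8 ^ (r + 1)) + 1) ^ r * c ≤ 2 ^ ((4 * a + 3) * a) * 2 ^ a := by gcongr
      _ = 2 ^ ((4 * a + 3) * a + a) := by rw [← pow_add]
      _ ≤ 2 ^ X := Nat.pow_le_pow_right (by norm_num) (by
          show (4 * a + 3) * a + a ≤ 4 * a ^ 2 + 5 * a + 3
          nlinarith)
  have t2 : r * (c * 8 ^ (r + 1)) ≤ 2 ^ X := by
    calc r * (c * 8 ^ (r + 1)) ≤ 2 ^ a * (2 ^ a * 2 ^ (3 * a + 3)) := by
          gcongr
          exact hr.trans haa
      _ = 2 ^ (5 * a + 3) := by rw [← pow_add, ← pow_add]; congr 1; ring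
      _ ≤ 2 ^ X := Nat.pow_le_pow_right (by norm_num) (by
          show 5 * a + 3 ≤ 4 * a ^ 2 + 5 * a + 3
          omega)
  have t3 : a ≤ 2 ^ X := haa.trans (Nat.pow_le_pow_right (by norm_num) (by
          show a ≤ 4 * a ^ 2 + 5 * a + 3
          omega))
  have t4 : 2 ^ (X + 2) ≤ h3 a := by
    refine le_trans (Nat.pow_le_pow_right (by norm_num) ?_) (h3_ge a (by omega))
    have h5 : 4 * a + 5 ≤ 2 ^ (a + 1) := by
      have : ∀ n : ℕ, 4 ≤ n → 4 * n + 5 ≤ 2 ^ (n + 1) := by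
        intro n hn
        induction n, hn using Nat.le_induction with
        | base => norm_num
        | succ n hn ih => rw [pow_succ]; omega
      exact this a (by omega)
    calc X + 2 ≤ (a + 1) * (4 * a + 5) := by
          show 4 * a ^ 2 + 5 * a + 3 + 2 ≤ (a + 1) * (4 * a + 5)
          nlinarith
      _ ≤ (a + 1) * 2 ^ (a + 1) := by gcongr
  have t5 : 2 ^ (X + 2) = 4 * 2 ^ X := by rw [pow_add]; ring
  have t6 : 0 < 2 ^ X := by positivity
  omega

end Pool.Agent.H825R3.Tsi
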