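import Mathlib
import Pool.Agent.H825R3.Tsi.Select

set_option autoImplicit false
open scoped ENNReal
open Finset Filter Topology

namespace Pool.Agent.H825R3.Tsi

lemma geo_sum (N : ℕ) : ∑ j ∈ range N, (1/4 : ℝ) ^ (j+1) ≤ 1/3 := by
  have : ∑ j ∈ range N, (1/4 : ℝ) ^ (j+1) = (1/3) * (1 - (1/4) ^ N) := by
    induction N with
    | zero => simp
    | succ N ih => rw [Finset.sum_range_succ, ih, pow_succ]; ring
  rw [this]
  have : 0 ≤ (1/4 : ℝ) ^ N := by positivity
  linarith

lemma geo_sum2 (N : ℕ) : ∑ j ∈ range N, (1/2 : ℝ) ^ (j+1) ≤ 1 := by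
  have : ∑ j ∈ range N, (1/2 : ℝ) ^ (j+1) = 1 - (1/2) ^ N := by
    induction N with
    | zero => simp
    | succ N ih => rw [Finset.sum_range_succ, ih, pow_succ]; ring
  rw [this]
  have : 0 ≤ (1/2 : ℝ) ^ N := by positivity
  linarith

namespace IsTsirelson

variable {T : Type} [NormedAddCommGroup T] [NormedSpace ℝ T] {e : ℕ → T}
variable (h : IsTsirelson T e)
variable {es : ℕ → StrongDual ℝ T} (hes : Biorthogonal e es)
include h hes

/-- an operator with summably small values on the basis is small -/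
lemma small_op (D : T →L[ℝ] T) (hD : ∀ j, ‖D (e j)‖ ≤ (1/4 : ℝ) ^ (j+1)) : ‖D‖ ≤ 1/3 := by
  refine D.opNorm_le_bound (by norm_num) fun y => ?_
  refine h.denseRange.induction_on (p := fun y => ‖D y‖ ≤ 1/3 * ‖y‖) y
    (isClosed_le (by fun_prop) (by fun_prop)) fun x => ?_
  have h1 : Lc e x = ∑ j ∈ x.support, x j • e j := by
    rw [Lc, Finsupp.linearCombination_apply, Finsupp.sum]
  have h2 : ‖D (Lc e x)‖ ≤ ∑ j ∈ x.support, ‖Lc e x‖ * (1/4 : ℝ) ^ (j+1) := by
    conv_lhs => rw [h1, map_sum]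
    refine (norm_sum_le _ _).trans (Finset.sum_le_sum fun j _ => ?_)
    rw [map_smul, norm_smul]
    exact mul_le_mul (h.coord_le x j) (hD j) (norm_nonneg _) (norm_nonneg _)
  refine h2.trans ?_
  rw [← mul_sum, mul_comm]
  refine mul_le_mul_of_nonneg_right ?_ (norm_nonneg _)
  refine le_trans (Finset.sum_le_sum_of_subset_of_nonneg (t := range (x.support.sup id + 1))
    (fun j hj => mem_range.2 (Nat.lt_succ_of_le (Finset.le_sup (f := id) hj)))
    (fun j _ _ => by positivity)) (geo_sum _)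

/-- **The unit vector basis of Tsirelson space has the factorization property.** -/
theorem factorization : FactorizationProperty e es := by
  classical
  intro A hAd
  obtain ⟨δ, hδ, hdiag⟩ := hAd
  have hcomp := h.complete
  set M : ℝ := 2 * ‖A‖ + 1 with hM
  have hM0 : 0 < M := by positivity
  -- constants
  obtain ⟨c, hc⟩ : ∃ c : ℕ, 8 * M / (δ / 2) ≤ c ∧ 16 * M / δ < c := by
    obtain ⟨c, hc⟩ := exists_nat_gt (max (8 * M / (δ / 2)) (16 * M / δ))
    exact ⟨c, (le_max_left _ _).trans hc.le, lt_of_le_of_lt (le_max_right _ _) hc⟩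
  obtain ⟨a₀, ha₀, hgr⟩ := growth_ineq c
  let ε : ℕ → ℝ := fun n => (δ / 2) * (1/8 : ℝ) ^ (n+1)
  have hε : ∀ n, 0 < ε n := fun n => by
    show 0 < (δ / 2) * (1/8 : ℝ) ^ (n+1)
    positivity
  let win : ℕ → (ℕ → ℕ × ℕ) → ℕ := fun n f => if n = 0 then a₀ else (f (n-1)).2 + 1
  let P : ℕ → (ℕ → ℕ × ℕ) → ℕ × ℕ → Prop := fun n f x =>
    win n f ≤ x.1 ∧ x.1 < x.2 ∧ x.2 < h3 (win n f) ∧
      (∀ j < n, |es x.1 (A (e (f j).1 - e (f j).2))| ≤ ε n ∧
        |es (f j).1 (A (e x.1 - e x.2))| ≤ ε n) ∧ |es x.1 (A (e x.2))| ≤ δ / 2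
  have hwin : ∀ n f, (∀ j < n, P j f (f j)) → a₀ ≤ win n f ∧ n ≤ win n f := by
    intro n
    induction n with
    | zero => intro f _; simp [win]
    | succ n ih =>
      intro f hf
      have h1 := ih f (fun j hj => hf j (by omega))
      have h2 := hf n (by omega)
      have h3' : win (n+1) f = (f n).2 + 1 := by simp [win]
      rw [h3']
      have h4 := h2.1
      have h5 := h2.2.1
      omega
  obtain ⟨s, hs⟩ := exists_hist P (by
    intro n f g x hfg hP
    have hw : win n f = win n g := by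
      by_cases hn : n = 0
      · simp [win, hn]
      · simp only [win, hn, if_false]
        rw [hfg (n-1) (by omega)]
    obtain ⟨p1, p2, p3, p4, p5⟩ := hP
    refine ⟨hw ▸ p1, p2, hw ▸ p3, fun j hj => ?_, p5⟩
    rw [← hfg j hj]
    exact p4 j hj) (by
    intro n f hf
    obtain ⟨w1, w2⟩ := hwin n f hf
    have hg := hgr (win n f) n w1 w2
    have hpow : (0:ℝ) < 8 ^ (n+1) := by positivity
    have hεn : ε n = (δ / 2) / 8 ^ (n+1) := by
      show (δ / 2) * (1/8 : ℝ) ^ (n+1) = _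
      rw [one_div, inv_pow]; rfl
    have hq8 : 8 * M / ε n ≤ ((c * 8 ^ (n+1) : ℕ) : ℝ) := by
      rw [hεn, div_div_eq_mul_div]
      push_cast
      calc 8 * M * 8 ^ (n+1) / (δ / 2) = (8 * M / (δ / 2)) * 8 ^ (n+1) := by ring
        _ ≤ c * 8 ^ (n+1) := by gcongr; exact hc.1
    obtain ⟨k, l, p1, p2, p3, p4, p5⟩ := h.select hes A (M := M) hδ (hε n) (by linarith) n
      (win n f) (c * 8 ^ (n+1)) (c * 8 ^ (n+1)) c f (by
        refine le_trans ?_ hq8
        rw [mul_div_assoc]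
        have : 0 ≤ M / ε n := (div_pos hM0 (hε n)).le
        linarith) hq8 hc.2 hg
    exact ⟨(k, l), p1, p2, p3, p4, p5⟩)
  -- the selected indices
  let θ : ℕ → ℕ := fun n => (s n).1
  let lam : ℕ → ℕ := fun n => (s n).2
  have hwin' : ∀ n, win (n+1) s = lam n + 1 := fun n => by simp [win, lam]
  have hθl : ∀ n, θ n < lam n := fun n => (hs n).2.1
  have hlθ : ∀ n, lam n < θ (n+1) := fun n => by
    have := (hs (n+1)).1
    rw [hwin'] at this
    exact this
  have hθm : StrictMono θ := strictMono_nat_of_lt_succ fun n => (hθl n).trans (hlθ n)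
  have hlm : StrictMono lam := strictMono_nat_of_lt_succ fun n => (hlθ n).trans (hθl (n+1))
  have hgrow : ∀ n, win n s ≤ h3^[n] a₀ ∧ lam n < h3^[n+1] a₀ := by
    intro n
    induction n with
    | zero =>
      refine ⟨by simp [win], ?_⟩
      have := (hs 0).2.2.1
      simpa [win] using this
    | succ n ih =>
      have h1 : win (n+1) s ≤ h3^[n+1] a₀ := by
        rw [hwin']
        exact ih.2
      refine ⟨h1, ?_⟩
      rw [Function.iterate_succ_apply']
      exact lt_of_lt_of_le (hs (n+1)).2.2.1 (h3_mono h1)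
  obtain ⟨V1, hV1⟩ := h.exists_push hes hθm ha₀ (fun i => (hθl i).trans (hgrow i).2)
  obtain ⟨V2, hV2⟩ := h.exists_push hes hlm ha₀ (fun i => (hgrow i).2)
  let R : T →L[ℝ] T := V1 - V2
  have hR : ∀ i, R (e i) = e (θ i) - e (lam i) := fun i => by
    show (V1 - V2) (e i) = _
    rw [ContinuousLinearMap.sub_apply, hV1, hV2]
  let b : ℕ → ℝ := fun i => es (θ i) (A (R (e i)))
  have hb : ∀ i, δ / 2 ≤ |b i| := by
    intro i
    have h1 : b i = es (θ i) (A (e (θ i))) - es (θ i) (A (e (lam i))) := by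
      show es (θ i) (A (R (e i))) = _
      rw [hR, map_sub, map_sub]
    have h2 := hdiag (θ i)
    have h3' : |es (θ i) (A (e (lam i)))| ≤ δ / 2 := (hs i).2.2.2.2
    rw [h1]
    have := abs_sub_abs_le_abs_sub (es (θ i) (A (e (θ i)))) (es (θ i) (A (e (lam i))))
    linarith
  have hb0 : ∀ i, b i ≠ 0 := fun i hi => by
    have := hb i
    rw [hi, abs_zero] at this
    linarith
  have hbinv : ∀ i, |(b i)⁻¹| ≤ 2 / δ := by
    intro i
    rw [abs_inv, inv_le_comm₀ (lt_of_lt_of_le (by positivity) (hb i)) (by positivity)]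
    rw [inv_div]
    exact hb i
  obtain ⟨S, hS⟩ := h.exists_pull hes hθm (fun i => (b i)⁻¹) (2 / δ) hbinv
  let D : T →L[ℝ] T := 1 - S ∘L A ∘L R
  have hDij : ∀ i j, |es i (D (e j))| ≤ (1/8 : ℝ) ^ (max i j + 1) := by
    intro i j
    have h1 : es i (D (e j)) = (if i = j then 1 else 0) - (b i)⁻¹ * es (θ i) (A (R (e j))) := by
      show es i ((1 - S ∘L A ∘L R) (e j)) = _
      rw [ContinuousLinearMap.sub_apply, map_sub, ContinuousLinearMap.one_apply, hes]
      simp only [ContinuousLinearMap.comp_apply]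
      rw [hS]
    by_cases hij : i = j
    · subst hij
      have : es i (D (e i)) = 0 := by
        rw [h1, if_pos rfl]
        have : (b i)⁻¹ * es (θ i) (A (R (e i))) = 1 := inv_mul_cancel₀ (hb0 i)
        rw [this, sub_self]
      rw [this, abs_zero]
      positivity
    · rw [h1, if_neg hij, zero_sub, abs_neg, abs_mul]
      have h2 : |es (θ i) (A (R (e j)))| ≤ ε (max i j) := by
        rw [hR]
        rcases lt_or_gt_of_ne hij with hlt | hlt
        · rw [max_eq_right hlt.le]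
          exact ((hs j).2.2.2.1 i hlt).2
        · rw [max_eq_left hlt.le]
          exact ((hs i).2.2.2.1 j hlt).1
      calc |(b i)⁻¹| * |es (θ i) (A (R (e j)))| ≤ (2 / δ) * ε (max i j) := by
            gcongr
            exact hbinv i
        _ = (1/8 : ℝ) ^ (max i j + 1) := by
            show (2 / δ) * ((δ / 2) * (1/8 : ℝ) ^ (max i j + 1)) = _
            field_simp
  have hDj : ∀ j, ‖D (e j)‖ ≤ (1/4 : ℝ) ^ (j+1) := by
    intro j
    refine h.norm_le_of_sum hes _ _ fun n => ?_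
    calc ∑ i ∈ range n, |es i (D (e j))|
        ≤ ∑ i ∈ range n, (1/4 : ℝ) ^ (j+1) * (1/2 : ℝ) ^ (i+1) := by
          refine Finset.sum_le_sum fun i _ => (hDij i j).trans ?_
          have e1 : (1/8 : ℝ) ^ (max i j + 1) = (1/4 : ℝ) ^ (max i j + 1) *
              (1/2 : ℝ) ^ (max i j + 1) := by
            rw [← mul_pow]; norm_num
          rw [e1]
          refine mul_le_mul ?_ ?_ (by positivity) (by positivity)
          · exact pow_le_pow_of_le_one (by norm_num) (by norm_num) (by omega)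
          · exact pow_le_pow_of_le_one (by norm_num) (by norm_num) (by omega)
      _ = (1/4 : ℝ) ^ (j+1) * ∑ i ∈ range n, (1/2 : ℝ) ^ (i+1) := by rw [mul_sum]
      _ ≤ (1/4 : ℝ) ^ (j+1) * 1 := by gcongr; exact geo_sum2 n
      _ = _ := mul_one _
  have hDn : ‖D‖ < 1 := lt_of_le_of_lt (h.small_op hes D hDj) (by norm_num)
  have hunit : IsUnit (1 - D) := isUnit_one_sub_of_norm_lt_one hDn
  have hSAR : 1 - D = S ∘L A ∘L R := by
    show 1 - (1 - S ∘L A ∘L R) = _
    abel
  rw [hSAR] at hunit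
  obtain ⟨u, hu⟩ := hunit
  refine ⟨R, (↑u⁻¹ : T →L[ℝ] T) ∘L S, ?_⟩
  have h1 : (↑u⁻¹ : T →L[ℝ] T) * (S ∘L A ∘L R) = 1 := by
    rw [← hu]; exact u.inv_mul
  exact h1

end IsTsirelson

end Pool.Agent.H825R3.Tsi
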